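import Pool.Agent.H85.Fold3.Defs3

/-!
# Project FOLD, third stage: positive definite matrices as Gram matrices
-/

set_option autoImplicit false

open Finset

namespace Pool.Agent.H85.Fold3

variable {W : Type} [DecidableEq W] [Fintype W]

open scoped MatrixOrder in
private theorem gram_sqrt {M : Matrix W W ℝ} (h : M.PosSemidef) :
    ∃ A : Matrix W W ℝ, Matrix.transpose A * A = M := by
  obtain ⟨X, hX, -, hM⟩ := CFC.exists_sqrt_of_isSelfAdjoint_of_quasispectrumRestricts h.isHermitian
    (QuasispectrumRestricts.nnreal_of_nonneg h.nonneg)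
  refine ⟨X, ?_⟩
  have h1 : Matrix.transpose X = X := by
    have h2 : Matrix.conjTranspose X = X := hX.star_eq
    rw [← Matrix.conjTranspose_eq_transpose_of_trivial]
    exact h2
  rw [h1]
  exact hM

omit [DecidableEq W] in
/-- the square of a linear combination -/
private theorem gram_quad {m : ℕ} (a : W → Fin m → ℝ) (c : W → ℝ) :
    ∑ u, ∑ v, c u * c v * (a u ⬝ᵥ a v) = (∑ u, c u • a u) ⬝ᵥ (∑ u, c u • a u) := by
  rw [sum_dotProduct]
  refine Finset.sum_congr rfl fun u _ => ?_
  rw [dotProduct_sum]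
  refine Finset.sum_congr rfl fun v _ => ?_
  rw [smul_dotProduct, dotProduct_smul, smul_eq_mul, smul_eq_mul, mul_assoc]

/-- a positive definite matrix is the Gram matrix of linearly independent vectors -/
theorem exists_gram (B : W → W → ℝ) (hs : ∀ u v, B u v = B v u)
    (hp : ∀ c : W → ℝ, c ≠ 0 → 0 < ∑ u, ∑ v, c u * c v * B u v) :
    ∃ (m : ℕ) (a : W → Fin m → ℝ), (∀ u v, a u ⬝ᵥ a v = B u v) ∧ LinearIndependent ℝ a := by
  have hps : (Matrix.of B).PosSemidef := by
    refine Matrix.PosSemidef.of_dotProduct_mulVec_nonneg ?_ ?_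
    · ext u v
      simp [Matrix.conjTranspose_apply, hs u v]
    · intro x
      have e : star x ⬝ᵥ (Matrix.of B).mulVec x = ∑ u, ∑ v, x u * x v * B u v := by
        simp only [dotProduct, Matrix.mulVec, Matrix.of_apply, Pi.star_apply, star_trivial,
          Finset.mul_sum]
        refine Finset.sum_congr rfl fun u _ => Finset.sum_congr rfl fun v _ => ?_
        ring
      rw [e]
      by_cases hx : x = 0
      · subst hx
        simp
      · exact (hp x hx).le
  obtain ⟨A, hA⟩ := gram_sqrt hps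
  let ε := Fintype.equivFin W
  refine ⟨Fintype.card W, fun u i => A (ε.symm i) u, ?_, ?_⟩
  · intro u v
    have h1 := congrFun (congrFun hA u) v
    rw [Matrix.mul_apply] at h1
    simp only [Matrix.transpose_apply, Matrix.of_apply] at h1
    rw [← h1]
    simp only [dotProduct]
    exact Equiv.sum_comp ε.symm fun w => A w u * A w v
  · rw [Fintype.linearIndependent_iff]
    intro c hc
    by_contra hcon
    push Not at hcon
    obtain ⟨u0, hu0⟩ := hcon
    have hc0 : c ≠ 0 := fun h => hu0 (by rw [h]; rfl)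
    have h1 := hp c hc0
    have h2 : ∀ u v, B u v = (fun i => A (ε.symm i) u) ⬝ᵥ (fun i => A (ε.symm i) v) := by
      intro u v
      have h1 := congrFun (congrFun hA u) v
      rw [Matrix.mul_apply] at h1
      simp only [Matrix.transpose_apply, Matrix.of_apply] at h1
      rw [← h1]
      simp only [dotProduct]
      exact (Equiv.sum_comp ε.symm fun w => A w u * A w v).symm
    have h3 : ∑ u, ∑ v, c u * c v * B u v = 0 := by
      have h4 := gram_quad (fun u i => A (ε.symm i) u) c
      rw [hc, zero_dotProduct] at h4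
      rw [← h4]
      exact Finset.sum_congr rfl fun u _ => Finset.sum_congr rfl fun v _ => by rw [h2 u v]
    exact absurd h3 h1.ne'

/-- the Gram matrix of linearly independent vectors is uniformly positive definite -/
theorem gram_pos {m : ℕ} (a : W → Fin m → ℝ) (ha : LinearIndependent ℝ a) :
    ∃ l : ℝ, 0 < l ∧ ∀ c : W → ℝ, l * ∑ u, c u ^ 2 ≤ ∑ u, ∑ v, c u * c v * (a u ⬝ᵥ a v) := by
  -- the quadratic form is continuous and positive on the unit sphere
  have hpos : ∀ c : W → ℝ, c ≠ 0 → 0 < ∑ u, ∑ v, c u * c v * (a u ⬝ᵥ a v) := by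
    intro c hc
    rw [gram_quad]
    have h1 : ∑ u, c u • a u ≠ 0 := by
      intro h
      apply hc
      funext u
      exact Fintype.linearIndependent_iff.1 ha c h u
    have h2 : 0 ≤ (∑ u, c u • a u) ⬝ᵥ (∑ u, c u • a u) :=
      Finset.sum_nonneg fun i _ => mul_self_nonneg _
    rcases h2.lt_or_eq with h3 | h3
    · exact h3
    · exact absurd (dotProduct_self_eq_zero.1 h3.symm) h1
  have hcont : Continuous fun c : W → ℝ => ∑ u, ∑ v, c u * c v * (a u ⬝ᵥ a v) := by
    fun_prop
  by_cases hW : Nonempty W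
  · have hcpt : IsCompact {c : W → ℝ | ∑ u, c u ^ 2 = 1} := by
      refine Metric.isCompact_of_isClosed_isBounded ?_ ?_
      · exact isClosed_eq (by fun_prop) continuous_const
      · rw [isBounded_iff_forall_norm_le]
        refine ⟨1, fun c hc => ?_⟩
        rw [pi_norm_le_iff_of_nonneg zero_le_one]
        intro u
        have h1 : c u ^ 2 ≤ ∑ u, c u ^ 2 :=
          Finset.single_le_sum (f := fun u => c u ^ 2) (fun i _ => sq_nonneg _)
            (Finset.mem_univ u)
        have h2 : c u ^ 2 ≤ 1 := h1.trans hc.le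
        rw [Real.norm_eq_abs]
        exact abs_le_one_iff_mul_self_le_one.2 (by rw [← sq]; exact h2)
    have hne : ({c : W → ℝ | ∑ u, c u ^ 2 = 1} : Set (W → ℝ)).Nonempty := by
      obtain ⟨w⟩ := hW
      refine ⟨Pi.single w 1, ?_⟩
      show ∑ u, (Pi.single w (1 : ℝ) : W → ℝ) u ^ 2 = 1
      rw [Finset.sum_eq_single w]
      · simp
      · intro u _ hu
        simp [hu]
      · intro h
        exact absurd (Finset.mem_univ _) h
    obtain ⟨c0, hc0, hmin⟩ := hcpt.exists_isMinOn hne hcont.continuousOn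
    have hc0' : c0 ≠ 0 := by
      intro h
      subst h
      have : ∑ u, (0 : W → ℝ) u ^ 2 = 1 := hc0
      simp at this
    refine ⟨_, hpos c0 hc0', fun c => ?_⟩
    by_cases hc : c = 0
    · subst hc
      simp
    · have hs : 0 < ∑ u, c u ^ 2 := by
        obtain ⟨u, hu⟩ := Function.ne_iff.1 hc
        exact Finset.sum_pos' (fun i _ => sq_nonneg _) ⟨u, Finset.mem_univ u, by
          have : c u ≠ 0 := hu
          positivity⟩
      set s : ℝ := ∑ u, c u ^ 2 with hsdef
      have hr : 0 < Real.sqrt s := Real.sqrt_pos.2 hs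
      have hr2 : Real.sqrt s ^ 2 = s := Real.sq_sqrt hs.le
      have hmem : (fun u => (Real.sqrt s)⁻¹ * c u) ∈ {c : W → ℝ | ∑ u, c u ^ 2 = 1} := by
        show ∑ u, ((Real.sqrt s)⁻¹ * c u) ^ 2 = 1
        simp only [mul_pow]
        rw [← Finset.mul_sum, ← hsdef, inv_pow, hr2]
        exact inv_mul_cancel₀ hs.ne'
      have h1 := hmin hmem
      simp only [Set.mem_ofPred_eq] at h1
      have h2 : ∑ u, ∑ v, (Real.sqrt s)⁻¹ * c u * ((Real.sqrt s)⁻¹ * c v) * (a u ⬝ᵥ a v) =
          s⁻¹ * ∑ u, ∑ v, c u * c v * (a u ⬝ᵥ a v) := by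
        rw [Finset.mul_sum]
        refine Finset.sum_congr rfl fun u _ => ?_
        rw [Finset.mul_sum]
        refine Finset.sum_congr rfl fun v _ => ?_
        have h3 : s⁻¹ = (Real.sqrt s)⁻¹ * (Real.sqrt s)⁻¹ := by
          rw [← sq, inv_pow, hr2]
        rw [h3]
        ring
      rw [h2] at h1
      have h4 := mul_le_mul_of_nonneg_right h1 hs.le
      calc (∑ u, ∑ v, c0 u * c0 v * (a u ⬝ᵥ a v)) * s
          ≤ s⁻¹ * (∑ u, ∑ v, c u * c v * (a u ⬝ᵥ a v)) * s := h4
        _ = ∑ u, ∑ v, c u * c v * (a u ⬝ᵥ a v) := by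
            field_simp
  · refine ⟨1, one_pos, fun c => ?_⟩
    rw [not_nonempty_iff] at hW
    simp

end Pool.Agent.H85.Fold3
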