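import Pool.Agent.H85.Fold3.Gram

/-!
# Project FOLD, third stage: folding vectors and edge subdivisions
-/

set_option autoImplicit false

open Finset

namespace Pool.Agent.H85.Fold3

open Pool.Agent.H85.Fold Pool.Agent.H85.Fold2

variable {W : Type} [DecidableEq W] [Fintype W]

private theorem subFold_dp {ι : Type} [Fintype ι] {m : ℕ} (c : ι → ℝ) (x : ι → Fin m → ℝ) :
    (∑ i, c i • x i) ⬝ᵥ (∑ j, c j • x j) = ∑ i, ∑ j, c i * c j * (x i ⬝ᵥ x j) := by
  rw [sum_dotProduct]
  refine Finset.sum_congr rfl fun i _ => ?_
  rw [dotProduct_sum]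
  refine Finset.sum_congr rfl fun j _ => ?_
  rw [smul_dotProduct, dotProduct_smul, smul_eq_mul, smul_eq_mul, mul_assoc]

/-- the vectors with the sum of two of them added -/
private def ext {n : ℕ} (a : W → Fin n → ℝ) (u w : W) : Option W → Fin n → ℝ
  | none => a u + a w
  | some v => a v

/-- the new Gram matrix -/
private noncomputable def newB {n : ℕ} (a : W → Fin n → ℝ) (u w : W) (e : ℝ) (x y : Option W) :
    ℝ :=
  ext a u w x ⬝ᵥ ext a u w y + (if x = some u ∧ y = some w then e else 0) +
    (if x = some w ∧ y = some u then e else 0)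

omit [Fintype W] in
private theorem newB_symm {n : ℕ} (a : W → Fin n → ℝ) (u w : W) (e : ℝ) (x y : Option W) :
    newB a u w e x y = newB a u w e y x := by
  unfold newB
  rw [dotProduct_comm (ext a u w x)]
  have h1 : (if x = some u ∧ y = some w then e else 0) =
      if y = some w ∧ x = some u then e else 0 := by
    simp only [and_comm]
  have h2 : (if x = some w ∧ y = some u then e else 0) =
      if y = some u ∧ x = some w then e else 0 := by
    simp only [and_comm]
  rw [h1, h2]
  ring

private theorem newB_sum {n : ℕ} (a : W → Fin n → ℝ) (u w : W) (e : ℝ) (c : Option W → ℝ) :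
    ∑ x, ∑ y, c x * c y * newB a u w e x y =
      ∑ v, ∑ v', (c (some v) + c none * ((if v = u then 1 else 0) + if v = w then 1 else 0)) *
        (c (some v') + c none * ((if v' = u then 1 else 0) + if v' = w then 1 else 0)) *
          (a v ⬝ᵥ a v') + 2 * e * (c (some u) * c (some w)) := by
  have h1 : ∑ x, c x • ext a u w x =
      ∑ v, (c (some v) + c none * ((if v = u then 1 else 0) + if v = w then 1 else 0)) • a v := by
    rw [Fintype.sum_option]
    simp only [ext, add_smul, mul_add, mul_ite, mul_one, mul_zero, ite_smul, zero_smul,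
      Finset.sum_add_distrib, Finset.sum_ite_eq', Finset.mem_univ, if_true, smul_add]
    abel
  have h2 : ∀ (s s' : W) (e : ℝ), ∑ x, ∑ y, c x * c y *
      (if x = some s ∧ y = some s' then e else 0) = c (some s) * c (some s') * e := by
    intro s s' e
    rw [Finset.sum_eq_single (some s), Finset.sum_eq_single (some s')]
    · simp
    · intro y _ hy
      simp [hy]
    · intro h
      exact absurd (Finset.mem_univ _) h
    · intro x _ hx
      exact Finset.sum_eq_zero fun y _ => by simp [hx]
    · intro h
      exact absurd (Finset.mem_univ _) h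
  rw [← subFold_dp, ← h1, subFold_dp]
  unfold newB
  simp only [mul_add, Finset.sum_add_distrib]
  rw [h2, h2]
  ring

/-- independent folding vectors of an edge subdivision -/
theorem subdiv_fold {H : SimpleGraph W} {n m : ℕ} {p : W → Fin n → ℝ} {a : W → Fin m → ℝ}
    (hf : IsFoldR H p a) (ha : LinearIndependent ℝ a) {u w : W} (huw : H.Adj u w) :
    ∃ (m' : ℕ) (p' : Option W → Fin n → ℝ) (a' : Option W → Fin m' → ℝ),
      IsFoldR (subdiv H u w) p' a' ∧ LinearIndependent ℝ a' := by
  obtain ⟨l, hl0, hl⟩ := gram_pos a ha
  have hne : u ≠ w := huw.ne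
  obtain ⟨e, he⟩ : ∃ e : ℝ, e = min l 1 / 2 := ⟨_, rfl⟩
  have he0 : 0 < e := by
    rw [he]
    exact half_pos (lt_min hl0 one_pos)
  have hel : e < l := by
    have h1 : min l 1 ≤ l := min_le_left _ _
    rw [he]
    linarith
  obtain ⟨m', a', ha', hind⟩ := exists_gram (newB a u w e) (newB_symm a u w e) (by
    intro c hc
    rw [newB_sum]
    obtain ⟨z, hz⟩ : ∃ z : W → ℝ, z = fun v =>
      c (some v) + c none * ((if v = u then 1 else 0) + if v = w then 1 else 0) := ⟨_, rfl⟩
    have h1 := hl z
    have h2 : ∑ v, z v ^ 2 ≥ z u ^ 2 + z w ^ 2 := by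
      have h0 : ∑ v ∈ ({u, w} : Finset W), z v ^ 2 = z u ^ 2 + z w ^ 2 := Finset.sum_pair hne
      rw [← h0]
      exact Finset.sum_le_sum_of_subset_of_nonneg (Finset.subset_univ _)
        fun v _ _ => sq_nonneg _
    have hzu : z u = c (some u) + c none := by
      rw [hz]
      simp [hne]
    have hzw : z w = c (some w) + c none := by
      rw [hz]
      simp [hne.symm]
    have h3 : 0 ≤ ∑ v, z v ^ 2 := Finset.sum_nonneg fun v _ => sq_nonneg _
    have h4 : (l - e) * ∑ v, z v ^ 2 + e / 2 * (2 * c none - z u - z w) ^ 2 ≤
        ∑ v, ∑ v', z v * z v' * (a v ⬝ᵥ a v') + 2 * e * (c (some u) * c (some w)) := by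
      have h5 : c (some u) = z u - c none := by rw [hzu]; ring
      have h6 : c (some w) = z w - c none := by rw [hzw]; ring
      rw [h5, h6]
      nlinarith [mul_le_mul_of_nonneg_left h2 he0.le, sq_nonneg (z u + z w),
        mul_nonneg he0.le (sq_nonneg (z u + z w))]
    have h7 : 0 < (l - e) * ∑ v, z v ^ 2 + e / 2 * (2 * c none - z u - z w) ^ 2 := by
      rcases h3.lt_or_eq with h8 | h8
      · have h9 : 0 < (l - e) * ∑ v, z v ^ 2 := mul_pos (by linarith) h8
        have h10 : 0 ≤ e / 2 * (2 * c none - z u - z w) ^ 2 := by positivity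
        linarith
      · have h9 : ∀ v, z v = 0 := by
          intro v
          have h10 := (Finset.sum_eq_zero_iff_of_nonneg (fun v _ => sq_nonneg (z v))).1 h8.symm v
            (Finset.mem_univ v)
          exact pow_eq_zero_iff (two_ne_zero) |>.1 h10
        have ht : c none ≠ 0 := by
          intro ht
          apply hc
          funext x
          rcases x with _ | v
          · exact ht
          · have h10 := h9 v
            rw [hz] at h10
            simpa [ht] using h10
        rw [← h8, h9 u, h9 w, mul_zero, zero_add, sub_zero, sub_zero]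
        positivity
    rw [hz] at h4
    exact lt_of_lt_of_le (by rw [hz] at h7; exact h7) h4)
  refine ⟨m', ext p u w, a', ⟨?_, ?_⟩, hind⟩
  · intro x y hxy
    rw [ha']
    unfold newB
    rcases x with _ | v <;> rcases y with _ | v'
    · simp only [ext, reduceCtorEq, false_and, if_false, add_zero, add_dotProduct,
        dotProduct_add]
      rw [hf.zero u u (Or.inl rfl), hf.zero w w (Or.inl rfl), hf.zero u w (Or.inr huw),
        hf.zero w u (Or.inr huw.symm)]
    · simp only [ext, reduceCtorEq, false_and, if_false, add_zero, add_dotProduct]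
      have h1 : v' = u ∨ v' = w ∨ (H.Adj u v' ∧ H.Adj w v') := by
        rcases hxy with h | h
        · exact absurd h (by simp)
        · exact h
      have h2 : u = v' ∨ H.Adj u v' := by
        rcases h1 with h | h | h
        · exact Or.inl h.symm
        · exact Or.inr (h ▸ huw)
        · exact Or.inr h.1
      have h3 : w = v' ∨ H.Adj w v' := by
        rcases h1 with h | h | h
        · exact Or.inr (h ▸ huw.symm)
        · exact Or.inl h.symm
        · exact Or.inr h.2
      rw [hf.zero u v' h2, hf.zero w v' h3]
    · simp only [ext, reduceCtorEq, and_false, if_false, add_zero, dotProduct_add]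
      have h1 : v = u ∨ v = w ∨ (H.Adj u v ∧ H.Adj w v) := by
        rcases hxy with h | h
        · exact absurd h (by simp)
        · exact h
      have h2 : v = u ∨ H.Adj v u := by
        rcases h1 with h | h | h
        · exact Or.inl h
        · exact Or.inr (h ▸ huw.symm)
        · exact Or.inr h.1.symm
      have h3 : v = w ∨ H.Adj v w := by
        rcases h1 with h | h | h
        · exact Or.inr (h ▸ huw)
        · exact Or.inl h
        · exact Or.inr h.2.symm
      rw [hf.zero v u h2, hf.zero v w h3]
    · have h1 : v = v' ∨ (H.Adj v v' ∧ ¬ (v = u ∧ v' = w) ∧ ¬ (v = w ∧ v' = u)) := by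
        rcases hxy with h | h
        · exact Or.inl (Option.some_injective _ h)
        · exact Or.inr h
      have h2 : ¬ (v = u ∧ v' = w) := by
        rcases h1 with h | h
        · rintro ⟨h3, h4⟩
          exact hne (h3.symm.trans (h.trans h4))
        · exact h.2.1
      have h3 : ¬ (v = w ∧ v' = u) := by
        rcases h1 with h | h
        · rintro ⟨h3, h4⟩
          exact hne (h4.symm.trans (h.symm.trans h3))
        · exact h.2.2
      have h4 : v = v' ∨ H.Adj v v' := h1.imp id fun h => h.1
      simp only [ext, Option.some.injEq]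
      rw [if_neg h2, if_neg h3, add_zero, add_zero]
      exact hf.zero v v' h4
  · intro x y hne' hadj
    rw [ha']
    unfold newB
    have hle : ∀ v v', p v ⬝ᵥ p v' ≤ a v ⬝ᵥ a v' := by
      intro v v'
      by_cases h : v = v' ∨ H.Adj v v'
      · exact (hf.zero v v' h).le
      · push Not at h
        exact (hf.neg v v' h.1 h.2).le
    rcases x with _ | v <;> rcases y with _ | v'
    · exact absurd rfl hne'
    · simp only [ext, reduceCtorEq, false_and, if_false, add_zero, add_dotProduct]
      have h1 : ¬ (v' = u ∨ v' = w ∨ (H.Adj u v' ∧ H.Adj w v')) := hadj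
      push Not at h1
      obtain ⟨h2, h3, h4⟩ := h1
      by_cases h5 : H.Adj u v'
      · exact add_lt_add_of_le_of_lt (hle _ _) (hf.neg w v' (Ne.symm h3) (h4 h5))
      · exact add_lt_add_of_lt_of_le (hf.neg u v' (Ne.symm h2) h5) (hle _ _)
    · simp only [ext, reduceCtorEq, and_false, if_false, add_zero, dotProduct_add]
      have h1 : ¬ (v = u ∨ v = w ∨ (H.Adj u v ∧ H.Adj w v)) := hadj
      push Not at h1
      obtain ⟨h2, h3, h4⟩ := h1
      by_cases h5 : H.Adj u v
      · exact add_lt_add_of_le_of_lt (hle _ _) (hf.neg v w h3 fun h => h4 h5 h.symm)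
      · exact add_lt_add_of_lt_of_le (hf.neg v u h2 fun h => h5 h.symm) (hle _ _)
    · have hvv : v ≠ v' := fun h => hne' (by rw [h])
      have h1 : ¬ (H.Adj v v' ∧ ¬ (v = u ∧ v' = w) ∧ ¬ (v = w ∧ v' = u)) := hadj
      have h5 : ∀ P : Prop, ∀ _ : Decidable P, 0 ≤ (if P then e else 0) := by
        intro P _
        split_ifs
        · exact he0.le
        · exact le_refl _
      simp only [ext, Option.some.injEq]
      by_cases h2 : H.Adj v v'
      · have h3 : (v = u ∧ v' = w) ∨ (v = w ∧ v' = u) := by
          by_contra h
          push Not at h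
          exact h1 ⟨h2, fun h' => h.1 h'.1 h'.2, fun h' => h.2 h'.1 h'.2⟩
        rcases h3 with h3 | h3
        · rw [if_pos h3, hf.zero v v' (Or.inr h2)]
          have := h5 (v = w ∧ v' = u) inferInstance
          linarith
        · rw [if_pos h3, hf.zero v v' (Or.inr h2)]
          have := h5 (v = u ∧ v' = w) inferInstance
          linarith
      · have h6 := hf.neg v v' hvv h2
        have h7 := h5 (v = w ∧ v' = u) inferInstance
        have h8 := h5 (v = u ∧ v' = w) inferInstance
        linarith

end Pool.Agent.H85.Fold3
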