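import Pool.Agent.H85.Fold3.SphSub
import Pool.Agent.H85.Fold3.SubFold

/-!
# Project FOLD, third stage: edge subdivisions of homology spheres
-/

set_option autoImplicit false
set_option linter.unusedSectionVars false

open Finset

namespace Pool.Agent.H85.Fold3

open Pool.Agent.H85.Fold Pool.Agent.H85.Fold2

variable {W : Type} [DecidableEq W] [Fintype W]

namespace SubSph

theorem cl_mono {H : SimpleGraph W} {σ τ : Finset W} (h : Cl H σ) (hτ : τ ⊆ σ) : Cl H τ :=
  fun a ha b hb hab => h a (hτ ha) b (hτ hb) hab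

theorem subdiv_comm (H : SimpleGraph W) (u w : W) : subdiv H u w = subdiv H w u := by
  ext x y
  rcases x with _ | a <;> rcases y with _ | b
  · exact Iff.rfl
  · change (b = u ∨ b = w ∨ (H.Adj u b ∧ H.Adj w b)) ↔ (b = w ∨ b = u ∨ (H.Adj w b ∧ H.Adj u b))
    tauto
  · change (a = u ∨ a = w ∨ (H.Adj u a ∧ H.Adj w a)) ↔ (a = w ∨ a = u ∨ (H.Adj w a ∧ H.Adj u a))
    tauto
  · change (H.Adj a b ∧ ¬ (a = u ∧ b = w) ∧ ¬ (a = w ∧ b = u)) ↔
      (H.Adj a b ∧ ¬ (a = w ∧ b = u) ∧ ¬ (a = u ∧ b = w))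
    tauto

/-- cliques of the subdivision -/
theorem cl_sub {H : SimpleGraph W} {u w : W} (huw : H.Adj u w) (σ' : Finset (Option W)) :
    Cl (subdiv H u w) σ' ↔ ¬ (u ∈ eraseNone σ' ∧ w ∈ eraseNone σ') ∧
      (none ∉ σ' ∧ Cl H (eraseNone σ') ∨
        none ∈ σ' ∧ Cl H (insert u (insert w (eraseNone σ')))) := by
  constructor
  · intro hc
    have h1 : ¬ (u ∈ eraseNone σ' ∧ w ∈ eraseNone σ') := by
      rintro ⟨h1, h2⟩
      rw [mem_eraseNone] at h1 h2
      have h3 := hc _ h1 _ h2 (fun h => huw.ne (Option.some.inj h))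
      exact h3.2.1 ⟨rfl, rfl⟩
    have h2 : Cl H (eraseNone σ') := by
      intro a ha b hb hab
      rw [mem_eraseNone] at ha hb
      exact (hc _ ha _ hb (fun h => hab (Option.some.inj h))).1
    refine ⟨h1, ?_⟩
    by_cases hn : none ∈ σ'
    · refine Or.inr ⟨hn, ?_⟩
      have h3 : ∀ b ∈ eraseNone σ', b = u ∨ b = w ∨ (H.Adj u b ∧ H.Adj w b) := by
        intro b hb
        rw [mem_eraseNone] at hb
        exact hc _ hn _ hb (by simp)
      intro a ha b hb hab
      rw [Finset.mem_insert, Finset.mem_insert] at ha hb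
      rcases ha with rfl | rfl | ha
      · rcases hb with rfl | rfl | hb
        · exact absurd rfl hab
        · exact huw
        · rcases h3 b hb with rfl | rfl | h
          · exact absurd rfl hab
          · exact huw
          · exact h.1
      · rcases hb with rfl | rfl | hb
        · exact huw.symm
        · exact absurd rfl hab
        · rcases h3 b hb with rfl | rfl | h
          · exact huw.symm
          · exact absurd rfl hab
          · exact h.2
      · rcases hb with rfl | rfl | hb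
        · rcases h3 a ha with rfl | rfl | h
          · exact absurd rfl hab
          · exact huw.symm
          · exact h.1.symm
        · rcases h3 a ha with rfl | rfl | h
          · exact huw
          · exact absurd rfl hab
          · exact h.2.symm
        · exact h2 a ha b hb hab
    · exact Or.inl ⟨hn, h2⟩
  · rintro ⟨h1, h2⟩
    have h3 : Cl H (eraseNone σ') := by
      rcases h2 with h2 | h2
      · exact h2.2
      · exact cl_mono h2.2 ((Finset.subset_insert _ _).trans (Finset.subset_insert _ _))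
    have h4 : none ∈ σ' → ∀ b, some b ∈ σ' → b = u ∨ b = w ∨ (H.Adj u b ∧ H.Adj w b) := by
      intro hn b hb
      rcases h2 with h2 | h2
      · exact absurd hn h2.1
      · by_cases e1 : b = u
        · exact Or.inl e1
        · by_cases e2 : b = w
          · exact Or.inr (Or.inl e2)
          · have hb' : b ∈ insert u (insert w (eraseNone σ')) := by
              simp [mem_eraseNone, hb]
            refine Or.inr (Or.inr ⟨h2.2 u (by simp) b hb' (Ne.symm e1),
              h2.2 w (by simp) b hb' (Ne.symm e2)⟩)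
    intro x hx y hy hxy
    rcases x with _ | a <;> rcases y with _ | b
    · exact absurd rfl hxy
    · exact h4 hx b hy
    · exact h4 hy a hx
    · refine ⟨h3 a (mem_eraseNone.2 hx) b (mem_eraseNone.2 hy) (fun h => hxy (by rw [h])), ?_, ?_⟩
      · rintro ⟨rfl, rfl⟩
        exact h1 ⟨mem_eraseNone.2 hx, mem_eraseNone.2 hy⟩
      · rintro ⟨rfl, rfl⟩
        exact h1 ⟨mem_eraseNone.2 hy, mem_eraseNone.2 hx⟩

theorem er_union (σ' ρ' : Finset (Option W)) :
    eraseNone (σ' ∪ ρ') = eraseNone σ' ∪ eraseNone ρ' := by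
  ext a
  simp [mem_eraseNone]

theorem disj_iff (σ' ρ' : Finset (Option W)) :
    Disjoint σ' ρ' ↔ Disjoint (eraseNone σ') (eraseNone ρ') ∧ ¬ (none ∈ σ' ∧ none ∈ ρ') := by
  rw [Finset.disjoint_left, Finset.disjoint_left]
  constructor
  · intro h
    refine ⟨fun a ha hb => ?_, fun hc => h hc.1 hc.2⟩
    rw [mem_eraseNone] at ha hb
    exact h ha hb
  · rintro ⟨h1, h2⟩ x hx hy
    rcases x with _ | a
    · exact h2 ⟨hx, hy⟩
    · exact h1 (mem_eraseNone.2 hx) (mem_eraseNone.2 hy)

/-- links of the subdivision -/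
theorem link_iff {H : SimpleGraph W} {u w : W} (huw : H.Adj u w) (σ' ρ' : Finset (Option W)) :
    (Disjoint σ' ρ' ∧ Cl (subdiv H u w) (σ' ∪ ρ')) ↔
      Disjoint (eraseNone σ') (eraseNone ρ') ∧ ¬ (none ∈ σ' ∧ none ∈ ρ') ∧
      ¬ ((u ∈ eraseNone σ' ∨ u ∈ eraseNone ρ') ∧ (w ∈ eraseNone σ' ∨ w ∈ eraseNone ρ')) ∧
      (none ∉ σ' ∧ none ∉ ρ' ∧ Cl H (eraseNone σ' ∪ eraseNone ρ') ∨
        (none ∈ σ' ∨ none ∈ ρ') ∧
          Cl H (insert u (insert w (eraseNone σ' ∪ eraseNone ρ')))) := by
  rw [disj_iff, cl_sub huw, er_union]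
  simp only [Finset.mem_union]
  tauto

theorem ex_some (P : Finset W → Prop) (σ' : Finset (Option W)) :
    (∃ τ, P τ ∧ σ' = τ.map Function.Embedding.some) ↔ none ∉ σ' ∧ P (eraseNone σ') := by
  constructor
  · rintro ⟨τ, h, rfl⟩
    refine ⟨by simp, ?_⟩
    rwa [eraseNone_map_some]
  · rintro ⟨h1, h2⟩
    refine ⟨_, h2, ?_⟩
    rw [map_some_eraseNone, Finset.erase_eq_of_notMem h1]

/-- the embedding which renames `w` -/
def ren (w : W) : W ↪ Option W where
  toFun v := if v = w then none else some v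
  inj' a b h := by
    by_cases ha : a = w <;> by_cases hb : b = w <;> simp [ha, hb] at h ⊢
    exact h

theorem none_mem_ren {w : W} {τ : Finset W} : none ∈ τ.map (ren w) ↔ w ∈ τ := by
  rw [Finset.mem_map]
  constructor
  · rintro ⟨a, ha, h⟩
    by_cases e : a = w
    · exact e ▸ ha
    · change (if a = w then none else some a) = none at h
      rw [if_neg e] at h
      exact absurd h (by simp)
  · intro h
    exact ⟨w, h, if_pos rfl⟩

theorem some_mem_ren {w : W} {τ : Finset W} {a : W} :
    some a ∈ τ.map (ren w) ↔ a ∈ τ ∧ a ≠ w := by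
  rw [Finset.mem_map]
  constructor
  · rintro ⟨b, hb, h⟩
    change (if b = w then none else some b) = some a at h
    by_cases e : b = w
    · rw [if_pos e] at h
      exact absurd h (by simp)
    · rw [if_neg e] at h
      cases h
      exact ⟨hb, e⟩
  · rintro ⟨h1, h2⟩
    exact ⟨a, h1, if_neg h2⟩

theorem ex_ren (P : Finset W → Prop) (w : W) (σ' : Finset (Option W)) :
    (∃ τ, P τ ∧ σ' = τ.map (ren w)) ↔ w ∉ eraseNone σ' ∧
      (none ∉ σ' ∧ P (eraseNone σ') ∨ none ∈ σ' ∧ P (insert w (eraseNone σ'))) := by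
  constructor
  · rintro ⟨τ, h, rfl⟩
    refine ⟨?_, ?_⟩
    · rw [mem_eraseNone, some_mem_ren]
      exact fun hc => hc.2 rfl
    · by_cases hw : w ∈ τ
      · refine Or.inr ⟨none_mem_ren.2 hw, ?_⟩
        have e : insert w (eraseNone (τ.map (ren w))) = τ := by
          ext a
          rw [Finset.mem_insert, mem_eraseNone, some_mem_ren]
          constructor
          · rintro (rfl | h)
            · exact hw
            · exact h.1
          · intro ha
            by_cases e : a = w
            · exact Or.inl e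
            · exact Or.inr ⟨ha, e⟩
        rwa [e]
      · refine Or.inl ⟨fun hc => hw (none_mem_ren.1 hc), ?_⟩
        have e : eraseNone (τ.map (ren w)) = τ := by
          ext a
          rw [mem_eraseNone, some_mem_ren]
          constructor
          · exact fun h => h.1
          · intro ha
            exact ⟨ha, fun e => hw (e ▸ ha)⟩
        rwa [e]
  · rintro ⟨h1, h2 | h2⟩
    · refine ⟨_, h2.2, ?_⟩
      ext x
      rcases x with _ | a
      · rw [none_mem_ren]
        exact ⟨fun h => absurd h h2.1, fun h => absurd h h1⟩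
      · rw [some_mem_ren, mem_eraseNone]
        exact ⟨fun h => ⟨h, fun e => h1 (mem_eraseNone.2 (e ▸ h))⟩, fun h => h.1⟩
    · refine ⟨_, h2.2, ?_⟩
      ext x
      rcases x with _ | a
      · rw [none_mem_ren]
        exact ⟨fun _ => Finset.mem_insert_self _ _, fun _ => h2.1⟩
      · rw [some_mem_ren, Finset.mem_insert, mem_eraseNone]
        constructor
        · intro h
          exact ⟨Or.inr h, fun e => h1 (mem_eraseNone.2 (e ▸ h))⟩
        · rintro ⟨h | h, h'⟩
          · exact absurd h h'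
          · exact h

theorem card_er {ρ' : Finset (Option W)} (h : none ∈ ρ') :
    ρ'.card = (eraseNone ρ').card + 1 := by
  have h1 := map_some_eraseNone ρ'
  have h2 := congrArg Finset.card h1
  rw [Finset.card_map, Finset.card_erase_of_mem h] at h2
  have := Finset.card_pos.2 ⟨_, h⟩
  omega

theorem card_er' {ρ' : Finset (Option W)} (h : none ∉ ρ') :
    ρ'.card = (eraseNone ρ').card := by
  have h1 := map_some_eraseNone ρ'
  have h2 := congrArg Finset.card h1
  rw [Finset.card_map, Finset.erase_eq_of_notMem h] at h2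
  exact h2.symm

end SubSph

open SubSph

section

variable {H : SimpleGraph W} {u w : W} {ρ' : Finset (Option W)}

private theorem linkA (huw : H.Adj u w) (hw : w ∉ eraseNone ρ') (hn : none ∈ ρ')
    (hu : u ∈ eraseNone ρ') :
    (fun σ' => Disjoint σ' ρ' ∧ Cl (subdiv H u w) (σ' ∪ ρ')) =
      (fun σ' => ∃ σ, (Disjoint σ (insert w (eraseNone ρ')) ∧
        Cl H (σ ∪ insert w (eraseNone ρ'))) ∧ σ' = σ.map Function.Embedding.some) := by
  funext σ'
  apply propext
  rw [link_iff huw, ex_some (fun σ => Disjoint σ (insert w (eraseNone ρ')) ∧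
      Cl H (σ ∪ insert w (eraseNone ρ')))]
  have e3 : insert u (insert w (eraseNone σ' ∪ eraseNone ρ')) =
      eraseNone σ' ∪ insert w (eraseNone ρ') := by
    ext a
    simp only [Finset.mem_insert, Finset.mem_union]
    constructor
    · rintro (rfl | h)
      · exact Or.inr (Or.inr hu)
      · tauto
    · tauto
  rw [e3, Finset.disjoint_insert_right]
  constructor
  · rintro ⟨h1, h2, h3, h4⟩
    refine ⟨fun h => h2 ⟨h, hn⟩, ⟨fun h => h3 ⟨Or.inr hu, Or.inl h⟩, h1⟩, ?_⟩
    rcases h4 with h4 | h4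
    · exact absurd hn h4.2.1
    · exact h4.2
  · rintro ⟨h1, ⟨h2, h3⟩, h4⟩
    refine ⟨h3, fun h => h1 h.1, ?_, Or.inr ⟨Or.inr hn, h4⟩⟩
    rintro ⟨-, h | h⟩
    · exact h2 h
    · exact hw h

private theorem linkB (huw : H.Adj u w) (hw : w ∉ eraseNone ρ') (hn : none ∈ ρ')
    (hu : u ∉ eraseNone ρ') :
    (fun σ' => Disjoint σ' ρ' ∧ Cl (subdiv H u w) (σ' ∪ ρ')) =
      (fun σ' => ¬ (some u ∈ σ' ∧ some w ∈ σ') ∧
        ∃ σ, (Disjoint σ (insert u (insert w (eraseNone ρ'))) ∧
        Cl H (σ ∪ insert u (insert w (eraseNone ρ')))) ∧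
          (σ'.erase (some u)).erase (some w) = σ.map Function.Embedding.some) := by
  funext σ'
  apply propext
  rw [link_iff huw, ex_some (fun σ => Disjoint σ (insert u (insert w (eraseNone ρ'))) ∧
      Cl H (σ ∪ insert u (insert w (eraseNone ρ'))))]
  have e5 : eraseNone ((σ'.erase (some u)).erase (some w)) =
      ((eraseNone σ').erase u).erase w := by
    ext a
    simp [mem_eraseNone]
  have e3 : insert u (insert w (eraseNone σ' ∪ eraseNone ρ')) =
      ((eraseNone σ').erase u).erase w ∪ insert u (insert w (eraseNone ρ')) := by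
    ext a
    simp only [Finset.mem_insert, Finset.mem_union, Finset.mem_erase]
    by_cases h1 : a = u
    · simp [h1]
    · by_cases h2 : a = w
      · simp [h2]
      · simp [h1, h2]
  have e6 : Disjoint (((eraseNone σ').erase u).erase w)
      (insert u (insert w (eraseNone ρ'))) ↔ Disjoint (eraseNone σ') (eraseNone ρ') := by
    rw [Finset.disjoint_left, Finset.disjoint_left]
    constructor
    · intro h a ha hb
      refine h (a := a) ?_ (by simp [hb])
      rw [Finset.mem_erase, Finset.mem_erase]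
      refine ⟨fun e => hw (e ▸ hb), fun e => hu (e ▸ hb), ha⟩
    · intro h a ha hb
      rw [Finset.mem_erase, Finset.mem_erase] at ha
      rw [Finset.mem_insert, Finset.mem_insert] at hb
      rcases hb with hb | hb | hb
      · exact ha.2.1 hb
      · exact ha.1 hb
      · exact h ha.2.2 hb
  have e7 : none ∈ (σ'.erase (some u)).erase (some w) ↔ none ∈ σ' := by simp
  rw [e5, e3, e6, e7, ← mem_eraseNone, ← mem_eraseNone]
  constructor
  · rintro ⟨h1, h2, h3, h4⟩
    refine ⟨fun h => h3 ⟨Or.inl h.1, Or.inl h.2⟩, fun h => h2 ⟨h, hn⟩, h1, ?_⟩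
    rcases h4 with h4 | h4
    · exact absurd hn h4.2.1
    · exact h4.2
  · rintro ⟨h0, h1, h3, h4⟩
    refine ⟨h3, fun h => h1 h.1, ?_, Or.inr ⟨Or.inr hn, h4⟩⟩
    rintro ⟨h5 | h5, h6 | h6⟩
    · exact h0 ⟨h5, h6⟩
    · exact hw h6
    · exact hu h5
    · exact hu h5

private theorem linkE (huw : H.Adj u w) (hw : w ∉ eraseNone ρ') (hn : none ∉ ρ')
    (hu : u ∈ eraseNone ρ') :
    (fun σ' => Disjoint σ' ρ' ∧ Cl (subdiv H u w) (σ' ∪ ρ')) =
      (fun σ' => ∃ σ, (Disjoint σ (eraseNone ρ') ∧
        Cl H (σ ∪ eraseNone ρ')) ∧ σ' = σ.map (ren w)) := by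
  funext σ'
  apply propext
  rw [link_iff huw, ex_ren (fun σ => Disjoint σ (eraseNone ρ') ∧
    Cl H (σ ∪ eraseNone ρ'))]
  have e3 : insert u (insert w (eraseNone σ' ∪ eraseNone ρ')) =
      insert w (eraseNone σ') ∪ eraseNone ρ' := by
    ext a
    simp only [Finset.mem_insert, Finset.mem_union]
    constructor
    · rintro (rfl | h | h | h)
      · exact Or.inr hu
      · exact Or.inl (Or.inl h)
      · exact Or.inl (Or.inr h)
      · exact Or.inr h
    · rintro ((h | h) | h)
      · exact Or.inr (Or.inl h)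
      · exact Or.inr (Or.inr (Or.inl h))
      · exact Or.inr (Or.inr (Or.inr h))
  rw [e3, Finset.disjoint_insert_left]
  constructor
  · rintro ⟨h1, h2, h3, h4⟩
    refine ⟨fun h => h3 ⟨Or.inr hu, Or.inl h⟩, ?_⟩
    rcases h4 with h4 | h4
    · exact Or.inl ⟨h4.1, h1, h4.2.2⟩
    · rcases h4.1 with h5 | h5
      · exact Or.inr ⟨h5, ⟨hw, h1⟩, h4.2⟩
      · exact absurd h5 hn
  · rintro ⟨h1, h2⟩
    have h3 : ¬ ((u ∈ eraseNone σ' ∨ u ∈ eraseNone ρ') ∧
        (w ∈ eraseNone σ' ∨ w ∈ eraseNone ρ')) := by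
      rintro ⟨-, h | h⟩
      · exact h1 h
      · exact hw h
    rcases h2 with h2 | h2
    · exact ⟨h2.2.1, fun h => hn h.2, h3, Or.inl ⟨h2.1, hn, h2.2.2⟩⟩
    · exact ⟨h2.2.1.2, fun h => hn h.2, h3, Or.inr ⟨Or.inl h2.1, h2.2.2⟩⟩

private theorem linkD (huw : H.Adj u w) (hw : w ∉ eraseNone ρ') (hn : none ∉ ρ')
    (hu : u ∉ eraseNone ρ') :
    (fun σ' => Disjoint σ' ρ' ∧ Cl (subdiv H u w) (σ' ∪ ρ')) =
      SubD (fun σ' => ∃ σ, (Disjoint σ (eraseNone ρ') ∧
        Cl H (σ ∪ eraseNone ρ')) ∧ σ' = σ.map Function.Embedding.some)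
        (some u) (some w) none := by
  funext σ'
  apply propext
  unfold SubD
  beta_reduce
  rw [link_iff huw, ex_some (fun σ => Disjoint σ (eraseNone ρ') ∧
    Cl H (σ ∪ eraseNone ρ')), ex_some (fun σ => Disjoint σ (eraseNone ρ') ∧
    Cl H (σ ∪ eraseNone ρ'))]
  have e5 : eraseNone (insert (some u) (insert (some w) (σ'.erase none))) =
      insert u (insert w (eraseNone σ')) := by
    ext a
    simp [mem_eraseNone]
  have e3 : insert u (insert w (eraseNone σ' ∪ eraseNone ρ')) =
      insert u (insert w (eraseNone σ')) ∪ eraseNone ρ' := by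
    rw [Finset.insert_union, Finset.insert_union]
  have e7 : none ∉ insert (some u) (insert (some w) (σ'.erase none)) := by simp
  rw [e5, e3, Finset.disjoint_insert_left, Finset.disjoint_insert_left,
    ← mem_eraseNone, ← mem_eraseNone]
  constructor
  · rintro ⟨h1, h2, h3, h4⟩
    refine ⟨fun h => h3 ⟨Or.inl h.1, Or.inl h.2⟩, ?_⟩
    rcases h4 with h4 | h4
    · exact Or.inl ⟨h4.1, h4.1, h1, h4.2.2⟩
    · rcases h4.1 with h5 | h5
      · exact Or.inr ⟨h5, e7, ⟨hu, hw, h1⟩, h4.2⟩
      · exact absurd h5 hn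
  · rintro ⟨h1, h2⟩
    have h3 : ¬ ((u ∈ eraseNone σ' ∨ u ∈ eraseNone ρ') ∧
        (w ∈ eraseNone σ' ∨ w ∈ eraseNone ρ')) := by
      rintro ⟨h5 | h5, h6 | h6⟩
      · exact h1 ⟨h5, h6⟩
      · exact hw h6
      · exact hu h5
      · exact hu h5
    rcases h2 with h2 | h2
    · exact ⟨h2.2.2.1, fun h => hn h.2, h3, Or.inl ⟨h2.1, hn, h2.2.2.2⟩⟩
    · exact ⟨h2.2.2.1.2.2, fun h => hn h.2, h3, Or.inr ⟨Or.inl h2.1, h2.2.2.2⟩⟩

private theorem linkC (huw : H.Adj u w) (hn : none ∉ ρ')
    (hc : ¬ Cl H (insert u (insert w (eraseNone ρ')))) :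
    (fun σ' => Disjoint σ' ρ' ∧ Cl (subdiv H u w) (σ' ∪ ρ')) =
      (fun σ' => ∃ σ, (Disjoint σ (eraseNone ρ') ∧
        Cl H (σ ∪ eraseNone ρ')) ∧ σ' = σ.map Function.Embedding.some) := by
  funext σ'
  apply propext
  rw [link_iff huw, ex_some (fun σ => Disjoint σ (eraseNone ρ') ∧
      Cl H (σ ∪ eraseNone ρ'))]
  have e3 : ¬ Cl H (insert u (insert w (eraseNone σ' ∪ eraseNone ρ'))) := by
    intro h8
    refine hc (cl_mono h8 ?_)
    exact Finset.insert_subset_insert _ (Finset.insert_subset_insert _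
      Finset.subset_union_right)
  have e4 : Cl H (eraseNone σ' ∪ eraseNone ρ') →
      ¬ ((u ∈ eraseNone σ' ∨ u ∈ eraseNone ρ') ∧
        (w ∈ eraseNone σ' ∨ w ∈ eraseNone ρ')) := by
    rintro h8 ⟨h9, h10⟩
    refine hc (cl_mono h8 ?_)
    intro a ha
    simp only [Finset.mem_insert, Finset.mem_union] at ha ⊢
    rcases ha with rfl | rfl | ha
    · exact h9
    · exact h10
    · exact Or.inr ha
  constructor
  · rintro ⟨h1, h2, h3, h4⟩
    rcases h4 with h4 | h4
    · exact ⟨h4.1, h1, h4.2.2⟩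
    · exact absurd h4.2 e3
  · rintro ⟨h1, h2, h3⟩
    exact ⟨h2, fun h => hn h.2, e4 h3, Or.inl ⟨h1, hn, h3⟩⟩

end

/-- the links, if `w` is not in the simplex -/
private theorem link_aux {H : SimpleGraph W} {n : ℕ} (h : IsHomologySphere H n) {u w : W}
    (huw : H.Adj u w) (ρ' : Finset (Option W)) (hρ : Cl (subdiv H u w) ρ')
    (hw : w ∉ eraseNone ρ') : ρ'.card ≤ n ∧
      Sph (fun σ' => Disjoint σ' ρ' ∧ Cl (subdiv H u w) (σ' ∪ ρ')) (n - ρ'.card) := by
  have hL := (isHomologySphere_iff H n).1 h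
  obtain ⟨-, hρ2⟩ := (cl_sub huw ρ').1 hρ
  by_cases hn : none ∈ ρ'
  · have hc : Cl H (insert u (insert w (eraseNone ρ'))) := by
      rcases hρ2 with h2 | h2
      · exact absurd hn h2.1
      · exact h2.2
    by_cases hu : u ∈ eraseNone ρ'
    · -- case A
      have hc2 : Cl H (insert w (eraseNone ρ')) := cl_mono hc (Finset.subset_insert _ _)
      have e1 : (insert w (eraseNone ρ')).card = ρ'.card := by
        rw [Finset.card_insert_of_notMem hw, card_er hn]
      obtain ⟨h3, h4⟩ := hL _ hc2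
      rw [e1] at h3 h4
      refine ⟨h3, ?_⟩
      rw [linkA huw hw hn hu]
      exact h4.map Function.Embedding.some
    · -- case B
      obtain ⟨h3, h4⟩ := hL _ hc
      have e1 : (insert u (insert w (eraseNone ρ'))).card = ρ'.card + 1 := by
        rw [Finset.card_insert_of_notMem, Finset.card_insert_of_notMem hw, card_er hn]
        rw [Finset.mem_insert]
        rintro (h | h)
        · exact huw.ne h
        · exact hu h
      rw [e1] at h3 h4
      refine ⟨by omega, ?_⟩
      have h5 := h4.map Function.Embedding.some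
      have h6 := h5.susp (u := some u) (w := some w) (fun h => huw.ne (Option.some.inj h))
        (by
          rintro σ ⟨τ, ⟨h7, -⟩, rfl⟩ hc
          rw [Finset.mem_map] at hc
          obtain ⟨a, ha, h8⟩ := hc
          cases h8
          exact Finset.disjoint_left.1 h7 ha (Finset.mem_insert_self _ _))
        (by
          rintro σ ⟨τ, ⟨h7, -⟩, rfl⟩ hc
          rw [Finset.mem_map] at hc
          obtain ⟨a, ha, h8⟩ := hc
          cases h8
          exact Finset.disjoint_left.1 h7 ha
            (Finset.mem_insert_of_mem (Finset.mem_insert_self _ _)))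
      have e4 : n - (ρ'.card + 1) + 1 = n - ρ'.card := by omega
      rw [e4] at h6
      rw [linkB huw hw hn hu]
      exact h6
  · have hc0 : Cl H (eraseNone ρ') := by
      rcases hρ2 with h2 | h2
      · exact h2.2
      · exact absurd h2.1 hn
    obtain ⟨h3, h4⟩ := hL _ hc0
    rw [← card_er' hn] at h3 h4
    refine ⟨h3, ?_⟩
    by_cases hc : Cl H (insert u (insert w (eraseNone ρ')))
    · by_cases hu : u ∈ eraseNone ρ'
      · rw [linkE huw hw hn hu]
        exact h4.map (ren w)
      · have h5 := h4.map Function.Embedding.some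
        have h6 := h5.subD (u := some u) (w := some w) (x := none)
          (fun h => huw.ne (Option.some.inj h)) (by simp) (by simp)
          (by
            rintro σ ⟨τ, -, rfl⟩
            simp)
        rw [linkD huw hw hn hu]
        exact h6
    · rw [linkC huw hn hc]
      exact h4.map Function.Embedding.some

/-- edge subdivisions of homology spheres are homology spheres -/
theorem subdiv_sphere {H : SimpleGraph W} {n : ℕ} (h : IsHomologySphere H n) {u w : W}
    (huw : H.Adj u w) : IsHomologySphere (subdiv H u w) n := by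
  rw [isHomologySphere_iff]
  intro ρ' hρ
  by_cases hw : w ∈ eraseNone ρ'
  · have hu : u ∉ eraseNone ρ' := fun hu => ((cl_sub huw ρ').1 hρ).1 ⟨hu, hw⟩
    rw [subdiv_comm] at hρ ⊢
    exact link_aux h huw.symm ρ' hρ hu
  · exact link_aux h huw ρ' hρ hw

/-- **Edge subdivisions preserve folded spheres with independent vectors.** -/
theorem IsFoldSphereN.subdiv {H : SimpleGraph W} {n : ℕ} (h : IsFoldSphereN H n) {u w : W}
    (huw : H.Adj u w) : IsFoldSphereN (subdiv H u w) n := by
  obtain ⟨h1, m, p, a, hf, ha⟩ := h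
  obtain ⟨m', p', a', hf', ha'⟩ := subdiv_fold hf ha huw
  exact ⟨subdiv_sphere h1 huw, m', p', a', hf', ha'⟩

end Pool.Agent.H85.Fold3
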