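import Pool.Agent.H85.Fold3.ArrN
import Pool.Agent.H85.Fold3.SubSphere
import Pool.Agent.H4.Fold3.LocDefs

/-!
# Project FOLD, third stage: normalized folding vectors
-/

set_option autoImplicit false

open Finset

namespace Pool.Agent.H85.Fold3

open Pool.Agent.H85.Fold Pool.Agent.H85.Fold2 Pool.Agent.H4.Fold3

variable {W : Type} [DecidableEq W] [Fintype W]

/-- linearly independent folding vectors can be normalized -/
theorem exists_foldL {H : SimpleGraph W} {n m : ℕ} {p : W → Fin n → ℝ} {a : W → Fin m → ℝ}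
    (hf : IsFoldR H p a) (ha : LinearIndependent ℝ a) :
    ∃ (m' : ℕ) (p' : W → Fin n → ℝ) (a' : W → Fin m' → ℝ), IsFoldL H univ p' a' := by
  obtain ⟨l, hl, hB⟩ := gram_pos a ha
  set c : ℝ := l / 2 with hc
  have hc0 : 0 < c := by positivity
  have hrt : Real.sqrt c * Real.sqrt c = c := Real.mul_self_sqrt hc0.le
  have hr0 : Real.sqrt c ≠ 0 := (Real.sqrt_pos.2 hc0).ne'
  obtain ⟨m', a', ha', -⟩ := exists_gram
    (fun u v => ((a u ⬝ᵥ a v) - if u = v then c else 0) / c)
    (fun u v => by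
      rw [dotProduct_comm (a u) (a v)]
      by_cases h : u = v
      · subst h; rfl
      · rw [if_neg h, if_neg (fun h' => h h'.symm)])
    (fun x hx => by
      have h1 := hB x
      have h2 : 0 < ∑ u, x u ^ 2 := by
        obtain ⟨u, hu⟩ := Function.ne_iff.1 hx
        exact Finset.sum_pos' (fun v _ => sq_nonneg _)
          ⟨u, Finset.mem_univ u, by
            have : x u ≠ 0 := hu
            positivity⟩
      have h3 : ∑ u, ∑ v, x u * x v * (((a u ⬝ᵥ a v) - if u = v then c else 0) / c) =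
          (∑ u, ∑ v, x u * x v * (a u ⬝ᵥ a v) - c * ∑ u, x u ^ 2) / c := by
        rw [Finset.mul_sum, ← Finset.sum_sub_distrib, Finset.sum_div]
        refine Finset.sum_congr rfl fun u _ => ?_
        have h4 : ∑ v, x u * x v * (((a u ⬝ᵥ a v) - if u = v then c else 0) / c) =
            ∑ v, (x u * x v * (a u ⬝ᵥ a v) - if u = v then c * (x u * x v) else 0) / c := by
          refine Finset.sum_congr rfl fun v _ => ?_
          split_ifs <;> ring
        rw [h4, ← Finset.sum_div, Finset.sum_sub_distrib, Finset.sum_ite_eq]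
        simp only [Finset.mem_univ, if_true]
        ring
      rw [h3]
      refine div_pos ?_ hc0
      have h5 : c * ∑ u, x u ^ 2 = l * (∑ u, x u ^ 2) / 2 := by rw [hc]; ring
      rw [h5]
      have h6 : 0 < l * ∑ u, x u ^ 2 := mul_pos hl h2
      linarith)
  have hp : ∀ u v, ((Real.sqrt c)⁻¹ • p u) ⬝ᵥ ((Real.sqrt c)⁻¹ • p v) = (p u ⬝ᵥ p v) / c := by
    intro u v
    rw [smul_dotProduct, dotProduct_smul, smul_eq_mul, smul_eq_mul, ← mul_assoc, ← mul_inv, hrt]
    ring
  refine ⟨m', fun v => (Real.sqrt c)⁻¹ • p v, a', ⟨?_, ?_, ?_⟩⟩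
  · intro v _
    rw [hp, ha', if_pos rfl, hf.zero v v (Or.inl rfl)]
    field_simp
    ring
  · intro u _ v _ huv
    rw [hp, ha', if_neg huv.ne, hf.zero u v (Or.inr huv), sub_zero]
  · intro u _ v _ huv hadj
    rw [hp, ha', if_neg huv, sub_zero]
    exact (div_lt_div_iff_of_pos_right hc0).2 (hf.neg u v huv hadj)

end Pool.Agent.H85.Fold3
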