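import Pool.Agent.H85.Fold3.Gram

/-!
# Project FOLD, third stage: duality between independent folding vectors and stresses
-/

set_option autoImplicit false

open Finset

namespace Pool.Agent.H85.Fold3

open Pool.Agent.H85.Fold Pool.Agent.H85.Fold2

variable {W : Type} [DecidableEq W] [Fintype W]

namespace Stress

omit [DecidableEq W] in
theorem expand (X : W → W → ℝ) (c d : W → ℝ) (t : ℝ) :
    ∑ u, ∑ v, (c u + t * d u) * (c v + t * d v) * X u v =
      (∑ u, ∑ v, c u * c v * X u v) + t * (∑ u, ∑ v, (c u * d v + d u * c v) * X u v) +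
        t ^ 2 * ∑ u, ∑ v, d u * d v * X u v := by
  simp only [Finset.mul_sum, ← Finset.sum_add_distrib]
  refine Finset.sum_congr rfl fun u _ => Finset.sum_congr rfl fun v _ => by ring

/-- a quadratic form which is nonnegative vanishes at `c` only if `X c = 0` -/
theorem kernel {X : W → W → ℝ} (hs : ∀ u v, X u v = X v u)
    (hp : ∀ c : W → ℝ, 0 ≤ ∑ u, ∑ v, c u * c v * X u v) {c : W → ℝ}
    (hc : ∑ u, ∑ v, c u * c v * X u v = 0) (w : W) : ∑ v, X w v * c v = 0 := by
  set d : W → ℝ := fun v => if v = w then 1 else 0 with hd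
  set b : ℝ := ∑ v, X w v * c v with hb
  have h1 : ∑ u, ∑ v, (c u * d v + d u * c v) * X u v = 2 * b := by
    have h2 : ∀ u, ∑ v, (c u * d v + d u * c v) * X u v =
        X w u * c u + d u * ∑ v, X u v * c v := by
      intro u
      simp only [add_mul, Finset.sum_add_distrib]
      congr 1
      · simp only [hd, mul_ite, mul_one, mul_zero, ite_mul, zero_mul, Finset.sum_ite_eq',
          Finset.mem_univ, if_true]
        rw [hs u w]
        ring
      · rw [Finset.mul_sum]
        refine Finset.sum_congr rfl fun v _ => by ring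
    simp only [h2, Finset.sum_add_distrib]
    have h3 : ∑ u, d u * ∑ v, X u v * c v = b := by
      simp only [hd, ite_mul, one_mul, zero_mul, Finset.sum_ite_eq', Finset.mem_univ, if_true]
      rfl
    rw [h3, ← hb]
    ring
  set q : ℝ := ∑ u, ∑ v, d u * d v * X u v with hq
  have hq0 : 0 ≤ q := hp d
  have h4 : ∀ t : ℝ, 0 ≤ t * (2 * b) + t ^ 2 * q := by
    intro t
    have h5 := hp (fun u => c u + t * d u)
    rw [expand, hc, h1, ← hq, zero_add] at h5
    exact h5
  by_contra hb0
  have hb2 : 0 < b ^ 2 := by positivity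
  have h6 := h4 (-b / (q + 1))
  have h7 : -b / (q + 1) * (2 * b) + (-b / (q + 1)) ^ 2 * q = -(b ^ 2 * (q + 2) / (q + 1) ^ 2) := by
    have : q + 1 ≠ 0 := by positivity
    field_simp
    ring
  rw [h7] at h6
  have h8 : 0 < b ^ 2 * (q + 2) / (q + 1) ^ 2 := by positivity
  linarith

/-- the set of positive semidefinite matrices of trace one -/
def psd1 (W : Type) [Fintype W] : Set (W → W → ℝ) :=
  {X | (∀ u v, X u v = X v u) ∧ (∀ c : W → ℝ, 0 ≤ ∑ u, ∑ v, c u * c v * X u v) ∧
    ∑ u, X u u = 1}

omit [DecidableEq W] in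
theorem psd1_convex : Convex ℝ (psd1 W) := by
  intro X hX Y hY s t hs ht hst
  refine ⟨fun u v => ?_, fun c => ?_, ?_⟩
  · simp only [Pi.add_apply, Pi.smul_apply, hX.1 u v, hY.1 u v]
  · have h1 : ∑ u, ∑ v, c u * c v * (s • X + t • Y) u v =
        s * (∑ u, ∑ v, c u * c v * X u v) + t * ∑ u, ∑ v, c u * c v * Y u v := by
      simp only [Finset.mul_sum, ← Finset.sum_add_distrib, Pi.add_apply, Pi.smul_apply,
        smul_eq_mul]
      refine Finset.sum_congr rfl fun u _ => Finset.sum_congr rfl fun v _ => by ring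
    rw [h1]
    exact add_nonneg (mul_nonneg hs (hX.2.1 c)) (mul_nonneg ht (hY.2.1 c))
  · simp only [Pi.add_apply, Pi.smul_apply, smul_eq_mul, Finset.sum_add_distrib,
      ← Finset.mul_sum, hX.2.2, hY.2.2, mul_one, hst]

theorem psd1_diag {X : W → W → ℝ} (hX : X ∈ psd1 W) (u : W) : 0 ≤ X u u := by
  have h1 := hX.2.1 (fun v => if v = u then 1 else 0)
  simpa using h1

theorem psd1_bound {X : W → W → ℝ} (hX : X ∈ psd1 W) (u v : W) : |X u v| ≤ 1 := by
  have hdiag : ∀ u, X u u ≤ 1 := by
    intro u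
    rw [← hX.2.2]
    exact Finset.single_le_sum (f := fun u => X u u) (fun i _ => psd1_diag hX i)
      (Finset.mem_univ u)
  by_cases huv : u = v
  · subst huv
    rw [abs_of_nonneg (psd1_diag hX u)]
    exact hdiag u
  have h1 : ∀ t : ℝ, 0 ≤ X u u + 2 * t * X u v + t ^ 2 * X v v := by
    intro t
    have h2 := hX.2.1 (fun w => (if w = u then 1 else 0) + t * (if w = v then 1 else 0))
    rw [expand] at h2
    have e1 : ∑ a, ∑ b, (if a = u then (1 : ℝ) else 0) * (if b = u then (1 : ℝ) else 0) * X a b =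
        X u u := by simp
    have e2 : ∑ a, ∑ b, (if a = v then (1 : ℝ) else 0) * (if b = v then (1 : ℝ) else 0) * X a b =
        X v v := by simp
    have e3 : ∑ a, ∑ b, ((if a = u then (1 : ℝ) else 0) * (if b = v then (1 : ℝ) else 0) +
        (if a = v then (1 : ℝ) else 0) * (if b = u then (1 : ℝ) else 0)) * X a b =
        2 * X u v := by
      simp only [add_mul, Finset.sum_add_distrib]
      have e4 : ∑ a, ∑ b, (if a = u then (1 : ℝ) else 0) * (if b = v then (1 : ℝ) else 0) *
          X a b = X u v := by simp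
      have e5 : ∑ a, ∑ b, (if a = v then (1 : ℝ) else 0) * (if b = u then (1 : ℝ) else 0) *
          X a b = X v u := by simp
      rw [e4, e5, hX.1 v u]
      ring
    rw [e1, e2, e3] at h2
    linarith
  have h2 := h1 1
  have h3 := h1 (-1)
  have h4 := hdiag u
  have h5 := hdiag v
  rw [abs_le]
  constructor <;> nlinarith

theorem psd1_compact : IsCompact (psd1 W) := by
  refine Metric.isCompact_of_isClosed_isBounded ?_ ?_
  · have h1 : psd1 W = (⋂ u, ⋂ v, {X : W → W → ℝ | X u v = X v u}) ∩
        ((⋂ c : W → ℝ, {X : W → W → ℝ | 0 ≤ ∑ u, ∑ v, c u * c v * X u v}) ∩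
          {X : W → W → ℝ | ∑ u, X u u = 1}) := by
      ext X
      simp only [psd1, Set.mem_ofPred_eq, Set.mem_inter_iff, Set.mem_iInter]
    rw [h1]
    refine IsClosed.inter ?_ (IsClosed.inter ?_ ?_)
    · refine isClosed_iInter fun u => isClosed_iInter fun v => ?_
      exact isClosed_eq (by fun_prop) (by fun_prop)
    · refine isClosed_iInter fun c => ?_
      exact isClosed_le (by fun_prop) (by fun_prop)
    · exact isClosed_eq (by fun_prop) (by fun_prop)
  · rw [isBounded_iff_forall_norm_le]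
    refine ⟨1, fun X hX => ?_⟩
    rw [pi_norm_le_iff_of_nonneg zero_le_one]
    intro u
    rw [pi_norm_le_iff_of_nonneg zero_le_one]
    intro v
    exact psd1_bound hX u v

end Stress

open Stress

/-- If there is no positive semidefinite stress, the vectors `a v` can be chosen linearly
independent. -/
theorem exists_indep {H : SimpleGraph W} {n m : ℕ} {p : W → Fin n → ℝ} {a : W → Fin m → ℝ}
    (hf : IsFoldR H p a)
    (hX : ∀ X : W → W → ℝ, (∀ u v, X u v = X v u) →
      (∀ c : W → ℝ, 0 ≤ ∑ u, ∑ v, c u * c v * X u v) →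
      (∀ u v, u ≠ v → ¬ H.Adj u v → X u v = 0) → (∀ u, ∑ v, X u v • p v = 0) →
      ∀ u v, X u v = 0) :
    ∃ (m' : ℕ) (a' : W → Fin m' → ℝ), IsFoldR H p a' ∧ LinearIndependent ℝ a' := by
  classical
  let N : W → W → Prop := fun u v => u ≠ v ∧ ¬ H.Adj u v
  have hNs : ∀ u v, N u v → N v u := fun u v h => ⟨h.1.symm, fun h' => h.2 h'.symm⟩
  let B0 : W → W → ℝ := fun u v => a u ⬝ᵥ a v
  have hB0s : ∀ u v, B0 u v = B0 v u := fun u v => dotProduct_comm _ _
  -- the functionals
  let F0 : (W → W → ℝ) →ₗ[ℝ] ℝ :=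
    { toFun := fun X => ∑ u, ∑ v, X u v * B0 u v
      map_add' := fun X Y => by
        simp only [Pi.add_apply, add_mul, Finset.sum_add_distrib]
      map_smul' := fun r X => by
        simp only [Pi.smul_apply, smul_eq_mul, Finset.mul_sum, RingHom.id_apply, mul_assoc] }
  let F1 : W × W → (W → W → ℝ) →ₗ[ℝ] ℝ := fun q =>
    { toFun := fun X => if N q.1 q.2 then X q.1 q.2 else 0
      map_add' := fun X Y => by
        by_cases h : N q.1 q.2 <;> simp [h]
      map_smul' := fun r X => by
        by_cases h : N q.1 q.2 <;> simp [h] }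
  let F : Option (W × W) → (W → W → ℝ) →ₗ[ℝ] ℝ := fun o => o.elim F0 F1
  let T : Submodule ℝ (W → W → ℝ) := ⨅ o, LinearMap.ker (F o)
  have hT : ∀ X, X ∈ T ↔ (∑ u, ∑ v, X u v * B0 u v = 0) ∧ ∀ u v, N u v → X u v = 0 := by
    intro X
    simp only [T, Submodule.mem_iInf, LinearMap.mem_ker]
    constructor
    · intro h
      refine ⟨h none, fun u v huv => ?_⟩
      have h1 : (if N u v then X u v else 0) = 0 := h (some (u, v))
      rwa [if_pos huv] at h1
    · rintro ⟨h1, h2⟩ (_ | ⟨u, v⟩)
      · exact h1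
      · show (if N u v then X u v else 0) = 0
        by_cases h : N u v
        · rw [if_pos h, h2 u v h]
        · rw [if_neg h]
  -- disjointness
  have hdisj : Disjoint (psd1 W) (T : Set (W → W → ℝ)) := by
    rw [Set.disjoint_left]
    rintro X hXK hXT
    obtain ⟨hX1, hX2⟩ := (hT X).1 hXT
    obtain ⟨hs, hp, htr⟩ := hXK
    have h1 : ∑ u, ∑ v, X u v * (p u ⬝ᵥ p v) = 0 := by
      rw [← hX1]
      refine Finset.sum_congr rfl fun u _ => Finset.sum_congr rfl fun v _ => ?_
      by_cases h : N u v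
      · rw [hX2 u v h, zero_mul, zero_mul]
      · have h2 : u = v ∨ H.Adj u v := by
          by_contra hc
          exact h ⟨fun h3 => hc (Or.inl h3), fun h3 => hc (Or.inr h3)⟩
        rw [hf.zero u v h2]
    have h2 : ∑ u, ∑ v, X u v * (p u ⬝ᵥ p v) =
        ∑ k, ∑ u, ∑ v, p u k * p v k * X u v := by
      simp only [dotProduct, Finset.mul_sum]
      rw [Finset.sum_comm' (s := Finset.univ) (t := fun _ => Finset.univ)
        (t' := Finset.univ) (s' := fun _ => Finset.univ)
        (h := fun _ _ => by simp)]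
      rw [Finset.sum_comm]
      have e1 : ∀ u : W, ∑ v : W, ∑ k : Fin n, X u v * (p u k * p v k) =
          ∑ k : Fin n, ∑ v : W, p u k * p v k * X u v := by
        intro u
        rw [Finset.sum_comm]
        refine Finset.sum_congr rfl fun k _ => Finset.sum_congr rfl fun v _ => by ring
      simp only [e1]
      rw [Finset.sum_comm]
    have h3 : ∀ k, ∑ u, ∑ v, p u k * p v k * X u v = 0 := by
      intro k
      have h4 := (Finset.sum_eq_zero_iff_of_nonneg
        (s := Finset.univ) (f := fun k => ∑ u, ∑ v, p u k * p v k * X u v)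
        (fun k _ => hp fun u => p u k)).1 (h2 ▸ h1)
      exact h4 k (Finset.mem_univ k)
    have h5 : ∀ u, ∑ v, X u v • p v = 0 := by
      intro u
      funext k
      rw [Finset.sum_apply]
      exact kernel hs hp (c := fun v => p v k) (h3 k) u
    have h6 := hX X hs hp (fun u v h7 h8 => hX2 u v ⟨h7, h8⟩) h5
    rw [Finset.sum_eq_zero fun u _ => h6 u u] at htr
    exact zero_ne_one htr
  have hTc : IsClosed (T : Set (W → W → ℝ)) := T.closed_of_finiteDimensional
  obtain ⟨g, s, t, hg1, hst, hg2⟩ := geometric_hahn_banach_compact_closed psd1_convex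
    psd1_compact T.convex hTc hdisj
  have ht0 : t < 0 := by
    have h1 := hg2 0 T.zero_mem
    rwa [map_zero] at h1
  have hgT : ∀ X ∈ T, g X = 0 := by
    intro X hXT
    by_contra hne
    have h1 := hg2 ((t / g X) • X) (T.smul_mem _ hXT)
    rw [map_smul, smul_eq_mul, div_mul_cancel₀ _ hne] at h1
    exact lt_irrefl _ h1
  -- the functional is a combination
  have hspan : ((-g : (W → W → ℝ) →L[ℝ] ℝ) : (W → W → ℝ) →ₗ[ℝ] ℝ) ∈
      Submodule.span ℝ (Set.range F) := by
    refine mem_span_of_iInf_ker_le_ker fun X hXT => ?_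
    rw [LinearMap.mem_ker]
    show -g X = 0
    rw [hgT X hXT, neg_zero]
  obtain ⟨b, hb⟩ := (Submodule.mem_span_range_iff_exists_fun ℝ).1 hspan
  set c0 : ℝ := b none with hc0
  let B1 : W → W → ℝ := fun u v => if N u v then (b (some (u, v)) + b (some (v, u))) / 2 else 0
  have hB1s : ∀ u v, B1 u v = B1 v u := by
    intro u v
    show (if N u v then (b (some (u, v)) + b (some (v, u))) / 2 else 0) =
      (if N v u then (b (some (v, u)) + b (some (u, v))) / 2 else 0)
    by_cases h : N u v
    · rw [if_pos h, if_pos (hNs u v h), add_comm]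
    · rw [if_neg h, if_neg fun h' => h (hNs v u h')]
  have hgval : ∀ X : W → W → ℝ, (∀ u v, X u v = X v u) →
      -g X = c0 * (∑ u, ∑ v, X u v * B0 u v) + ∑ u, ∑ v, X u v * B1 u v := by
    intro X hs
    have h1 := LinearMap.congr_fun hb X
    rw [LinearMap.sum_apply, Fintype.sum_option] at h1
    have h2 : ∑ q : W × W, (b (some q) • F (some q)) X = ∑ u, ∑ v, X u v * B1 u v := by
      rw [Fintype.sum_prod_type]
      have h3 : ∀ u v, (b (some (u, v)) • F (some (u, v))) X =
          if N u v then b (some (u, v)) * X u v else 0 := by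
        intro u v
        show b (some (u, v)) * (if N u v then X u v else 0) = _
        rw [mul_ite, mul_zero]
      simp only [h3]
      have h4 : ∑ u, ∑ v, X u v * B1 u v = (∑ u, ∑ v, (if N u v then b (some (u, v)) * X u v
          else 0)) / 2 + (∑ u, ∑ v, (if N v u then b (some (v, u)) * X v u else 0)) / 2 := by
        rw [← add_div, ← Finset.sum_add_distrib, Finset.sum_div]
        refine Finset.sum_congr rfl fun u _ => ?_
        rw [← Finset.sum_add_distrib, Finset.sum_div]
        refine Finset.sum_congr rfl fun v _ => ?_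
        show X u v * (if N u v then (b (some (u, v)) + b (some (v, u))) / 2 else 0) = _
        by_cases h : N u v
        · rw [if_pos h, if_pos h, if_pos (hNs u v h), hs v u]
          ring
        · rw [if_neg h, if_neg h, if_neg fun h' => h (hNs v u h')]
          simp
      rw [h4]
      have h5 : ∑ u, ∑ v, (if N v u then b (some (v, u)) * X v u else 0) =
          ∑ u, ∑ v, (if N u v then b (some (u, v)) * X u v else 0) := Finset.sum_comm
      rw [h5]
      ring
    rw [h2] at h1
    have h6 : (b none • F none) X = c0 * (∑ u, ∑ v, X u v * B0 u v) := rfl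
    rw [h6] at h1
    exact h1.symm
  -- positivity
  have hpos : ∀ c : W → ℝ, c ≠ 0 →
      0 < c0 * (∑ u, ∑ v, c u * c v * B0 u v) + ∑ u, ∑ v, c u * c v * B1 u v := by
    intro c hc
    have hn : 0 < ∑ u, c u * c u := by
      obtain ⟨u, hu⟩ := Function.ne_iff.1 hc
      refine Finset.sum_pos' (fun i _ => mul_self_nonneg _) ⟨u, Finset.mem_univ u, ?_⟩
      exact mul_self_pos.2 hu
    set r : ℝ := ∑ u, c u * c u with hr
    let X : W → W → ℝ := fun u v => r⁻¹ * (c u * c v)
    have hXs : ∀ u v, X u v = X v u := by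
      intro u v
      show r⁻¹ * (c u * c v) = r⁻¹ * (c v * c u)
      ring
    have hXK : X ∈ psd1 W := by
      refine ⟨hXs, fun d => ?_, ?_⟩
      · have h1 : ∑ u, ∑ v, d u * d v * X u v = r⁻¹ * (∑ u, d u * c u) ^ 2 := by
          rw [sq, Finset.sum_mul_sum, Finset.mul_sum]
          refine Finset.sum_congr rfl fun u _ => ?_
          rw [Finset.mul_sum]
          refine Finset.sum_congr rfl fun v _ => ?_
          show d u * d v * (r⁻¹ * (c u * c v)) = _
          ring
        rw [h1]
        positivity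
      · show ∑ u, r⁻¹ * (c u * c u) = 1
        rw [← Finset.mul_sum, ← hr, inv_mul_cancel₀ hn.ne']
    have h2 : 0 < -g X := by
      have := hg1 X hXK
      linarith
    rw [hgval X hXs] at h2
    have h3 : ∀ B : W → W → ℝ, ∑ u, ∑ v, X u v * B u v =
        r⁻¹ * ∑ u, ∑ v, c u * c v * B u v := by
      intro B
      rw [Finset.mul_sum]
      refine Finset.sum_congr rfl fun u _ => ?_
      rw [Finset.mul_sum]
      refine Finset.sum_congr rfl fun v _ => ?_
      show r⁻¹ * (c u * c v) * B u v = _
      ring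
    rw [h3, h3] at h2
    have h4 : c0 * (r⁻¹ * ∑ u, ∑ v, c u * c v * B0 u v) + r⁻¹ * ∑ u, ∑ v, c u * c v * B1 u v =
        r⁻¹ * (c0 * (∑ u, ∑ v, c u * c v * B0 u v) + ∑ u, ∑ v, c u * c v * B1 u v) := by
      ring
    rw [h4] at h2
    exact (mul_pos_iff_of_pos_left (inv_pos.2 hn)).1 h2
  -- `B0` is positive semidefinite
  have hB0p : ∀ c : W → ℝ, 0 ≤ ∑ u, ∑ v, c u * c v * B0 u v := by
    intro c
    have h1 : ∑ u, ∑ v, c u * c v * B0 u v = ∑ k, (∑ u, c u * a u k) ^ 2 := by
      have e1 : ∀ k, (∑ u, c u * a u k) ^ 2 = ∑ u, ∑ v, c u * c v * (a u k * a v k) := by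
        intro k
        rw [sq, Finset.sum_mul_sum]
        refine Finset.sum_congr rfl fun u _ => Finset.sum_congr rfl fun v _ => by ring
      simp only [e1]
      symm
      rw [Finset.sum_comm]
      refine Finset.sum_congr rfl fun u _ => ?_
      rw [Finset.sum_comm]
      refine Finset.sum_congr rfl fun v _ => ?_
      rw [← Finset.mul_sum]
      rfl
    rw [h1]
    positivity
  -- normalization of the coefficient
  obtain ⟨B2, hB2s, hB2N, hB2p⟩ : ∃ B2 : W → W → ℝ, (∀ u v, B2 u v = B2 v u) ∧
      (∀ u v, ¬ N u v → B2 u v = 0) ∧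
      ∀ c : W → ℝ, c ≠ 0 →
        0 < (∑ u, ∑ v, c u * c v * B0 u v) + ∑ u, ∑ v, c u * c v * B2 u v := by
    by_cases hc : 0 < c0
    · refine ⟨fun u v => c0⁻¹ * B1 u v, fun u v => congrArg (c0⁻¹ * ·) (hB1s u v),
        fun u v h => ?_, fun c hc' => ?_⟩
      · show c0⁻¹ * (if N u v then _ else 0) = 0
        rw [if_neg h, mul_zero]
      · have h1 := hpos c hc'
        have h2 : (∑ u, ∑ v, c u * c v * B0 u v) + ∑ u, ∑ v, c u * c v * (c0⁻¹ * B1 u v) =
            c0⁻¹ * (c0 * (∑ u, ∑ v, c u * c v * B0 u v) + ∑ u, ∑ v, c u * c v * B1 u v) := by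
          have e1 : ∑ u, ∑ v, c u * c v * (c0⁻¹ * B1 u v) =
              c0⁻¹ * ∑ u, ∑ v, c u * c v * B1 u v := by
            rw [Finset.mul_sum]
            refine Finset.sum_congr rfl fun u _ => ?_
            rw [Finset.mul_sum]
            refine Finset.sum_congr rfl fun v _ => by ring
          rw [e1]
          field_simp
        rw [h2]
        exact mul_pos (inv_pos.2 hc) h1
    · refine ⟨B1, hB1s, fun u v h => if_neg h, fun c hc' => ?_⟩
      have h1 := hpos c hc'
      have h2 := hB0p c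
      push Not at hc
      nlinarith
  -- small multiples
  have hev : ∀ᶠ e : ℝ in nhdsWithin 0 (Set.Ioi 0), ∀ u v, N u v →
      p u ⬝ᵥ p v < B0 u v + e * B2 u v := by
    refine Filter.Eventually.filter_mono nhdsWithin_le_nhds ?_
    rw [Filter.eventually_all]
    intro u
    rw [Filter.eventually_all]
    intro v
    by_cases h : N u v
    · have hlt : p u ⬝ᵥ p v < B0 u v + 0 * B2 u v := by
        rw [zero_mul, add_zero]
        exact hf.neg u v h.1 h.2
      have hcont : Continuous fun e : ℝ => B0 u v + e * B2 u v := by fun_prop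
      filter_upwards [(hcont.tendsto 0).eventually (lt_mem_nhds hlt)] with e he _
      exact he
    · exact Filter.Eventually.of_forall fun e h' => absurd h' h
  have hev1 : ∀ᶠ e : ℝ in nhdsWithin 0 (Set.Ioi 0), e ∈ Set.Ioc (0 : ℝ) 1 :=
    Ioc_mem_nhdsGT zero_lt_one
  obtain ⟨e, he, he1⟩ := (hev.and hev1).exists
  obtain ⟨m', a', ha', hli⟩ := exists_gram (fun u v => B0 u v + e * B2 u v)
    (fun u v => by simp only [hB0s u v, hB2s u v]) (fun c hc => by
      have h1 := hB2p c hc
      have h2 := hB0p c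
      have h3 : ∑ u, ∑ v, c u * c v * (B0 u v + e * B2 u v) =
          (∑ u, ∑ v, c u * c v * B0 u v) + e * ∑ u, ∑ v, c u * c v * B2 u v := by
        simp only [Finset.mul_sum, ← Finset.sum_add_distrib]
        refine Finset.sum_congr rfl fun u _ => Finset.sum_congr rfl fun v _ => by ring
      rw [h3]
      have h4 := he1.1
      have h5 := he1.2
      nlinarith)
  refine ⟨m', a', ⟨fun u v h => ?_, fun u v h1 h2 => ?_⟩, hli⟩
  · rw [ha', hf.zero u v h]
    have h1 : ¬ N u v := fun h' => h.elim h'.1 h'.2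
    show a u ⬝ᵥ a v = a u ⬝ᵥ a v + e * B2 u v
    rw [hB2N u v h1, mul_zero, add_zero]
  · rw [ha']
    exact he u v ⟨h1, h2⟩

end Pool.Agent.H85.Fold3
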