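import Pool.Agent.H85.Fold3.NoStress
import Pool.Agent.H85.Fold3.Stress

/-!
# Project FOLD, third stage: independent folding vectors for simplicial arrangements
-/

set_option autoImplicit false

open Finset

namespace Pool.Agent.H85.Fold3

open Pool.Agent.H85.Fold Pool.Agent.H85.Fold2

variable {W : Type} [DecidableEq W] [Fintype W]

/-- simplicial arrangements are essential -/
theorem essential {H : SimpleGraph W} {n m : ℕ} {h : Fin m → Fin n → ℝ} {r : W → Fin n → ℝ}
    (A : IsArrangementR H n h r) (z : Fin n → ℝ) (hz : ∀ i, h i ⬝ᵥ z = 0) : z = 0 := by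
  obtain ⟨σ, c, hσ, hc, hzc⟩ := A.cover z
  by_contra hne
  have hex : ∃ v ∈ σ, 0 < c v := by
    by_contra hcon
    push Not at hcon
    apply hne
    rw [hzc]
    apply Finset.sum_eq_zero
    intro v hv
    rw [le_antisymm (hcon v hv) (hc v hv), zero_smul]
  obtain ⟨v, hv, hcv⟩ := hex
  -- all the functionals vanish on `r v`
  have hvan : ∀ i, h i ⬝ᵥ r v = 0 := by
    intro i
    have h1 : ∑ u ∈ σ, c u * ((h i ⬝ᵥ r u) * (h i ⬝ᵥ r v)) = 0 := by
      have h2 : ∑ u ∈ σ, c u * (h i ⬝ᵥ r u) = 0 := by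
        rw [← hz i, hzc, dotProduct_sum]
        apply Finset.sum_congr rfl
        intro u _
        rw [dotProduct_smul, smul_eq_mul]
      calc ∑ u ∈ σ, c u * ((h i ⬝ᵥ r u) * (h i ⬝ᵥ r v))
          = (∑ u ∈ σ, c u * (h i ⬝ᵥ r u)) * (h i ⬝ᵥ r v) := by
            rw [Finset.sum_mul]
            apply Finset.sum_congr rfl
            intro u _
            ring
        _ = 0 := by rw [h2, zero_mul]
    have h3 : ∀ u ∈ σ, 0 ≤ c u * ((h i ⬝ᵥ r u) * (h i ⬝ᵥ r v)) := by
      intro u hu
      apply mul_nonneg (hc u hu)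
      by_cases huv : u = v
      · subst huv
        exact mul_self_nonneg _
      · exact ((A.adj u v).1 (hσ u hu v hv huv)).2 i
    have h4 := (Finset.sum_eq_zero_iff_of_nonneg h3).1 h1 v hv
    rcases mul_eq_zero.1 h4 with h5 | h5
    · exact absurd h5 hcv.ne'
    · exact mul_self_eq_zero.1 h5
  -- so `v` is adjacent to every other vertex
  have hadj : ∀ u, u ≠ v → H.Adj u v := by
    intro u hu
    rw [A.adj]
    refine ⟨hu, fun i => ?_⟩
    rw [hvan i, mul_zero]
  obtain ⟨ρ, d, hρ, hd, hrd⟩ := A.cover (-r v)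
  have hcl : Cl H (insert v ρ) := by
    intro x hx y hy hxy
    rw [Finset.mem_insert] at hx hy
    rcases hx with rfl | hx
    · exact (hadj y hxy.symm).symm
    · rcases hy with rfl | hy
      · exact hadj x hxy
      · exact hρ x hx y hy hxy
  have hsum : ∑ u ∈ insert v ρ,
      ((if u = v then (1 : ℝ) else 0) + (if u ∈ ρ then d u else 0)) • r u = 0 := by
    have e1 : ∑ u ∈ insert v ρ, (if u = v then (1 : ℝ) else 0) • r u = r v := by
      rw [Finset.sum_eq_single_of_mem v (Finset.mem_insert_self v ρ)]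
      · rw [if_pos rfl, one_smul]
      · intro u _ hu
        rw [if_neg hu, zero_smul]
    have e2 : ∑ u ∈ insert v ρ, (if u ∈ ρ then d u else 0) • r u = ∑ u ∈ ρ, d u • r u := by
      symm
      rw [← Finset.sum_subset (Finset.subset_insert v ρ)]
      · apply Finset.sum_congr rfl
        intro u hu
        rw [if_pos hu]
      · intro u _ hu
        rw [if_neg hu, zero_smul]
    simp only [add_smul]
    rw [Finset.sum_add_distrib, e1, e2, ← hrd, add_neg_cancel]
  have h6 := A.indep (insert v ρ) hcl _ hsum v (Finset.mem_insert_self v ρ)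
  rw [if_pos rfl] at h6
  have h7 : 0 ≤ (if v ∈ ρ then d v else 0) := by
    split_ifs with hvρ
    · exact hd v hvρ
    · exact le_rfl
  linarith

/-- **Real simplicial arrangements are folded spheres with independent vectors.** -/
theorem _root_.Pool.Agent.H85.Fold2.IsArrangementR.isFoldSphereN {H : SimpleGraph W} {n m : ℕ}
    {h : Fin m → Fin n → ℝ} {r : W → Fin n → ℝ} (A : IsArrangementR H n h r) :
    IsFoldSphereN H n := by
  refine ⟨A.isHomologySphere, ?_⟩
  obtain ⟨p, hp⟩ := exists_compress (n := n) (fun v i => h i ⬝ᵥ r v) (by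
    set L : (Fin n → ℝ) →ₗ[ℝ] (Fin m → ℝ) := Matrix.mulVecLin (Matrix.of h) with hL
    have hsub : Submodule.span ℝ (Set.range fun v i => h i ⬝ᵥ r v) ≤ LinearMap.range L := by
      rw [Submodule.span_le]
      rintro x ⟨v, rfl⟩
      exact ⟨r v, rfl⟩
    calc Module.finrank ℝ (Submodule.span ℝ (Set.range fun v i => h i ⬝ᵥ r v))
        ≤ Module.finrank ℝ (LinearMap.range L) := Submodule.finrank_mono hsub
      _ ≤ Module.finrank ℝ (Fin n → ℝ) := LinearMap.finrank_range_le L
      _ = n := by simp)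
  have hf : IsFoldR H p (fun v i => |h i ⬝ᵥ r v|) := by
    constructor
    · intro u v huv
      rw [hp]
      refine Finset.sum_congr rfl fun i _ => ?_
      have h0 : 0 ≤ (h i ⬝ᵥ r u) * (h i ⬝ᵥ r v) := by
        rcases huv with rfl | hadj
        · exact mul_self_nonneg _
        · exact ((A.adj u v).1 hadj).2 i
      change (h i ⬝ᵥ r u) * (h i ⬝ᵥ r v) = |h i ⬝ᵥ r u| * |h i ⬝ᵥ r v|
      rw [← abs_mul, abs_of_nonneg h0]
    · intro u v huv hadj
      rw [hp]
      have h1 : ∃ i, (h i ⬝ᵥ r u) * (h i ⬝ᵥ r v) < 0 := by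
        by_contra hcon
        push Not at hcon
        exact hadj ((A.adj u v).2 ⟨huv, hcon⟩)
      obtain ⟨i, hi⟩ := h1
      refine Finset.sum_lt_sum (fun j _ => ?_) ⟨i, Finset.mem_univ i, ?_⟩
      · change (h j ⬝ᵥ r u) * (h j ⬝ᵥ r v) ≤ |h j ⬝ᵥ r u| * |h j ⬝ᵥ r v|
        rw [← abs_mul]
        exact le_abs_self _
      · change (h i ⬝ᵥ r u) * (h i ⬝ᵥ r v) < |h i ⬝ᵥ r u| * |h i ⬝ᵥ r v|
        rw [← abs_mul, abs_of_neg hi]
        linarith
  obtain ⟨m', a', h1, h2⟩ := exists_indep hf (by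
    intro X hs hpos h0 hX
    refine no_stress A X hs hpos h0 fun u => ?_
    apply essential A
    -- the square norm
    have e1 : (∑ v, X u v • p v) ⬝ᵥ (∑ v, X u v • p v) =
        (∑ v, X u v • fun i => h i ⬝ᵥ r v) ⬝ᵥ (∑ v, X u v • fun i => h i ⬝ᵥ r v) := by
      simp only [sum_dotProduct, dotProduct_sum, smul_dotProduct, dotProduct_smul, hp]
    rw [hX u, dotProduct_zero] at e1
    have e2 : (∑ v, X u v • fun i => h i ⬝ᵥ r v) = 0 := dotProduct_self_eq_zero.1 e1.symm
    intro i
    have e3 := congrFun e2 i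
    rw [Finset.sum_apply] at e3
    rw [dotProduct_sum]
    refine Eq.trans (Finset.sum_congr rfl fun v _ => ?_) e3
    rw [dotProduct_smul]
    rfl)
  exact ⟨m', p, a', h1, h2⟩

end Pool.Agent.H85.Fold3
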