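import Pool.Agent.H85.Fold3.Defs3

/-!
# Project FOLD, third stage: coefficients in the localizations of a simplicial arrangement
-/

set_option autoImplicit false

open Finset

namespace Pool.Agent.H85.Fold3

open Pool.Agent.H85.Fold Pool.Agent.H85.Fold2

variable {W : Type} [DecidableEq W] [Fintype W]

/-- `F σ u w` is the coefficient of the ray `u` in the expansion of the ray `w` in the fan of the
localization at the cone of `σ` (modulo the span of `σ`). -/
structure IsCoef (H : SimpleGraph W) {n : ℕ} (r : W → Fin n → ℝ)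
    (F : Finset W → W → W → ℝ) : Prop where
  nonneg : ∀ σ u w, 0 ≤ F σ u w
  supp : ∀ σ u w, F σ u w ≠ 0 → u ∉ σ
  clique : ∀ σ, Cl H σ → ∀ w w', (w = w' ∨ H.Adj w w') → ∀ τ : Finset W,
    (∀ u ∈ τ, u ∈ σ ∨ F σ u w ≠ 0 ∨ F σ u w' ≠ 0) → Cl H τ
  expand : ∀ σ, Cl H σ → ∀ w, ∃ c : W → ℝ, r w = ∑ u ∈ σ, c u • r u + ∑ u, F σ u w • r u
  next : ∀ σ v, v ∉ σ → Cl H (insert v σ) → ∀ w w', (w = w' ∨ H.Adj w w') → F σ v w ≠ 0 →
    ∀ u, u ≠ v → F σ u w' = F (insert v σ) u w'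
  empty : ∀ u w, F ∅ u w = if u = w then 1 else 0

/-- an expansion of `r w` in the localization at `σ` -/
private structure CExp (H : SimpleGraph W) {n : ℕ} (r : W → Fin n → ℝ) (σ : Finset W) (w : W)
    (f : W → ℝ) : Prop where
  nonneg : ∀ u, 0 ≤ f u
  supp : ∀ u, f u ≠ 0 → u ∉ σ
  clique : ∀ u u', (u ∈ σ ∨ f u ≠ 0) → (u' ∈ σ ∨ f u' ≠ 0) → u ≠ u' → H.Adj u u'
  expand : ∃ c : W → ℝ, r w = ∑ u ∈ σ, c u • r u + ∑ u, f u • r u

omit [DecidableEq W] [Fintype W] in
private theorem coef_dot {n : ℕ} (g : Fin n → ℝ) (r : W → Fin n → ℝ) (s : Finset W)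
    (c : W → ℝ) : g ⬝ᵥ (∑ u ∈ s, c u • r u) = ∑ u ∈ s, c u * (g ⬝ᵥ r u) := by
  rw [dotProduct_sum]
  refine Finset.sum_congr rfl fun u _ => ?_
  rw [dotProduct_smul, smul_eq_mul]

section

variable {H : SimpleGraph W} {n m : ℕ} {h : Fin m → Fin n → ℝ} {r : W → Fin n → ℝ}

/-- the sign of an expansion -/
private theorem coef_pos {σ : Finset W} {w : W} {f : W → ℝ} (A : IsArrangementR H n h r)
    (E : CExp H r σ w f) (i : Fin m) (h0 : ∀ v ∈ σ, h i ⬝ᵥ r v = 0) (u : W) (hu : f u ≠ 0)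
    (hu0 : h i ⬝ᵥ r u ≠ 0) : 0 < (h i ⬝ᵥ r w) * (h i ⬝ᵥ r u) := by
  obtain ⟨c, hc⟩ := E.expand
  have h1 : h i ⬝ᵥ r w = ∑ x, f x * (h i ⬝ᵥ r x) := by
    conv_lhs => rw [hc]
    rw [dotProduct_add, coef_dot, coef_dot, Finset.sum_eq_zero, zero_add]
    intro v hv
    rw [h0 v hv, mul_zero]
  rw [h1, Finset.sum_mul]
  have h2 : ∀ x ∈ (univ : Finset W), 0 ≤ f x * (h i ⬝ᵥ r x) * (h i ⬝ᵥ r u) := by
    intro x _
    by_cases hx : f x = 0
    · rw [hx, zero_mul, zero_mul]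
    · rw [mul_assoc]
      refine mul_nonneg (E.nonneg x) ?_
      by_cases hxu : x = u
      · rw [hxu]; exact mul_self_nonneg _
      · exact ((A.adj x u).1 (E.clique x u (Or.inr hx) (Or.inr hu) hxu)).2 i
  refine lt_of_lt_of_le ?_ (Finset.single_le_sum h2 (Finset.mem_univ u))
  rw [mul_assoc]
  exact mul_pos (lt_of_le_of_ne (E.nonneg u) (Ne.symm hu)) (mul_self_pos.2 hu0)

private theorem coef_key_aux {σ : Finset W} {w w' : W} {f f' : W → ℝ}
    (A : IsArrangementR H n h r) (hw : w = w' ∨ H.Adj w w') (E : CExp H r σ w f)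
    (E' : CExp H r σ w' f') (u u' : W) (hu : f u ≠ 0) (hu' : f' u' ≠ 0) (i : Fin m) :
    0 ≤ (h i ⬝ᵥ r u) * (h i ⬝ᵥ r u') := by
  by_contra hcon
  push Not at hcon
  have hu0 : h i ⬝ᵥ r u ≠ 0 := fun e => by rw [e, zero_mul] at hcon; exact lt_irrefl _ hcon
  have hu0' : h i ⬝ᵥ r u' ≠ 0 := fun e => by rw [e, mul_zero] at hcon; exact lt_irrefl _ hcon
  have h0 : ∀ v ∈ σ, h i ⬝ᵥ r v = 0 := by
    intro v hv
    by_contra hne
    have h1 : 0 ≤ (h i ⬝ᵥ r v) * (h i ⬝ᵥ r u) := by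
      have hvu : v ≠ u := fun e => E.supp u hu (e ▸ hv)
      exact ((A.adj v u).1 (E.clique v u (Or.inl hv) (Or.inr hu) hvu)).2 i
    have h2 : 0 ≤ (h i ⬝ᵥ r v) * (h i ⬝ᵥ r u') := by
      have hvu : v ≠ u' := fun e => E'.supp u' hu' (e ▸ hv)
      exact ((A.adj v u').1 (E'.clique v u' (Or.inl hv) (Or.inr hu') hvu)).2 i
    have h3 := mul_nonneg h1 h2
    have h4 : 0 < (h i ⬝ᵥ r v) * (h i ⬝ᵥ r v) := mul_self_pos.2 hne
    have h5 := mul_neg_of_pos_of_neg h4 hcon
    have h6 : (h i ⬝ᵥ r v) * (h i ⬝ᵥ r u) * ((h i ⬝ᵥ r v) * (h i ⬝ᵥ r u')) =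
      (h i ⬝ᵥ r v) * (h i ⬝ᵥ r v) * ((h i ⬝ᵥ r u) * (h i ⬝ᵥ r u')) := by ring
    rw [h6] at h3
    exact absurd h3 (not_le.2 h5)
  have h1 := coef_pos A E i h0 u hu hu0
  have h2 := coef_pos A E' i h0 u' hu' hu0'
  have h3 : 0 ≤ (h i ⬝ᵥ r w) * (h i ⬝ᵥ r w') := by
    rcases hw with rfl | hw
    · exact mul_self_nonneg _
    · exact ((A.adj w w').1 hw).2 i
  have h4 := mul_pos h1 h2
  have h5 : (h i ⬝ᵥ r w) * (h i ⬝ᵥ r u) * ((h i ⬝ᵥ r w') * (h i ⬝ᵥ r u')) =
    (h i ⬝ᵥ r w) * (h i ⬝ᵥ r w') * ((h i ⬝ᵥ r u) * (h i ⬝ᵥ r u')) := by ring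
  rw [h5] at h4
  exact absurd h4 (not_lt.2 (mul_nonpos_of_nonneg_of_nonpos h3 hcon.le))

/-- the key property -/
private theorem coef_key {σ : Finset W} {w w' : W} {f f' : W → ℝ}
    (A : IsArrangementR H n h r) (hw : w = w' ∨ H.Adj w w') (E : CExp H r σ w f)
    (E' : CExp H r σ w' f') (τ : Finset W) (hτ : ∀ u ∈ τ, u ∈ σ ∨ f u ≠ 0 ∨ f' u ≠ 0) :
    Cl H τ := by
  have main : ∀ u u', f u ≠ 0 → f' u' ≠ 0 → u ≠ u' → H.Adj u u' := fun u u' hu hu' hne =>
    (A.adj u u').2 ⟨hne, fun i => coef_key_aux A hw E E' u u' hu hu' i⟩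
  intro u hu u' hu' hne
  rcases hτ u hu with h1 | h1 | h1 <;> rcases hτ u' hu' with h2 | h2 | h2
  · exact E.clique u u' (Or.inl h1) (Or.inl h2) hne
  · exact E.clique u u' (Or.inl h1) (Or.inr h2) hne
  · exact E'.clique u u' (Or.inl h1) (Or.inr h2) hne
  · exact E.clique u u' (Or.inr h1) (Or.inl h2) hne
  · exact E.clique u u' (Or.inr h1) (Or.inr h2) hne
  · exact main u u' h1 h2 hne
  · exact E'.clique u u' (Or.inr h1) (Or.inl h2) hne
  · exact (main u' u h2 h1 (Ne.symm hne)).symm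
  · exact E'.clique u u' (Or.inr h1) (Or.inr h2) hne

/-- uniqueness -/
private theorem coef_uniq {σ : Finset W} {w : W} {f f' : W → ℝ}
    (A : IsArrangementR H n h r) (E : CExp H r σ w f) (E' : CExp H r σ w f') : f = f' := by
  classical
  obtain ⟨c, hc⟩ := E.expand
  obtain ⟨c', hc'⟩ := E'.expand
  let τ : Finset W := univ.filter fun u => u ∈ σ ∨ f u ≠ 0 ∨ f' u ≠ 0
  have hmem : ∀ u, u ∈ τ ↔ (u ∈ σ ∨ f u ≠ 0 ∨ f' u ≠ 0) := fun u => by
    simp [τ]
  have hτ : Cl H τ := coef_key A (Or.inl rfl) E E' τ fun u hu => (hmem u).1 hu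
  let d : W → ℝ := fun u => (if u ∈ σ then c u - c' u else 0) + (f u - f' u)
  have hd0 : ∀ u, u ∉ τ → d u = 0 := by
    intro u hu
    rw [hmem] at hu
    push Not at hu
    show (if u ∈ σ then c u - c' u else 0) + (f u - f' u) = 0
    rw [if_neg hu.1, hu.2.1, hu.2.2, sub_zero, add_zero]
  have hsum : ∑ u ∈ τ, d u • r u = 0 := by
    have h1 : ∑ u ∈ τ, d u • r u = ∑ u, d u • r u := by
      refine Finset.sum_subset (Finset.subset_univ _) fun u _ hu => ?_
      rw [hd0 u hu, zero_smul]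
    have h2 : ∑ u ∈ σ, (c u - c' u) • r u = ∑ u, (if u ∈ σ then c u - c' u else 0) • r u := by
      simp only [ite_smul, zero_smul]
      rw [Finset.sum_ite_mem, Finset.univ_inter]
    rw [h1]
    simp only [d, add_smul]
    rw [Finset.sum_add_distrib, ← h2]
    simp only [sub_smul]
    rw [Finset.sum_sub_distrib, Finset.sum_sub_distrib]
    have h3 := hc.symm.trans hc'
    have h4 : (∑ u ∈ σ, c u • r u - ∑ u ∈ σ, c' u • r u) +
        (∑ u, f u • r u - ∑ u, f' u • r u) =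
        (∑ u ∈ σ, c u • r u + ∑ u, f u • r u) - (∑ u ∈ σ, c' u • r u + ∑ u, f' u • r u) := by
      abel
    rw [h4, h3, sub_self]
  have hd := A.indep τ hτ d hsum
  funext u
  by_cases huσ : u ∈ σ
  · have h1 : f u = 0 := by
      by_contra hne
      exact E.supp u hne huσ
    have h2 : f' u = 0 := by
      by_contra hne
      exact E'.supp u hne huσ
    rw [h1, h2]
  · have h3 : d u = 0 := by
      by_cases hu : u ∈ τ
      · exact hd u hu
      · exact hd0 u hu
    have h4 : (if u ∈ σ then c u - c' u else 0) + (f u - f' u) = 0 := h3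
    rw [if_neg huσ, zero_add, sub_eq_zero] at h4
    exact h4

/-- existence -/
private theorem coef_exists (A : IsArrangementR H n h r) (σ : Finset W) (hσ : Cl H σ) (w : W) :
    ∃ f, CExp H r σ w f := by
  classical
  let p : Fin n → ℝ := ∑ v ∈ σ, r v
  have hp : ∀ g : Fin n → ℝ, g ⬝ᵥ p = ∑ v ∈ σ, g ⬝ᵥ r v := fun g => dotProduct_sum _ _ _
  -- a large number
  obtain ⟨N, hN⟩ : ∃ N : ℝ, ∀ i : Fin m, h i ⬝ᵥ p ≠ 0 →
      0 < (h i ⬝ᵥ r w + N * (h i ⬝ᵥ p)) * (h i ⬝ᵥ p) := by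
    let B : Fin m → ℝ := fun i => if h i ⬝ᵥ p = 0 then 0 else
      |(h i ⬝ᵥ r w) * (h i ⬝ᵥ p)| / ((h i ⬝ᵥ p) * (h i ⬝ᵥ p)) + 1
    have hB : ∀ i, 0 ≤ B i := by
      intro i
      simp only [B]
      split_ifs
      · exact le_rfl
      · have := mul_self_nonneg (h i ⬝ᵥ p)
        positivity
    refine ⟨∑ i, B i, fun i hi => ?_⟩
    have h1 : B i ≤ ∑ i, B i := Finset.single_le_sum (fun j _ => hB j) (Finset.mem_univ i)
    have h2 : 0 < (h i ⬝ᵥ p) * (h i ⬝ᵥ p) := mul_self_pos.2 hi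
    have h3 : B i * ((h i ⬝ᵥ p) * (h i ⬝ᵥ p)) =
        |(h i ⬝ᵥ r w) * (h i ⬝ᵥ p)| + (h i ⬝ᵥ p) * (h i ⬝ᵥ p) := by
      simp only [B, if_neg hi]
      rw [add_mul, one_mul, div_mul_cancel₀ _ h2.ne']
    have h4 := neg_abs_le ((h i ⬝ᵥ r w) * (h i ⬝ᵥ p))
    have h5 : B i * ((h i ⬝ᵥ p) * (h i ⬝ᵥ p)) ≤ (∑ i, B i) * ((h i ⬝ᵥ p) * (h i ⬝ᵥ p)) :=
      mul_le_mul_of_nonneg_right h1 h2.le
    have h6 : (h i ⬝ᵥ r w + (∑ i, B i) * (h i ⬝ᵥ p)) * (h i ⬝ᵥ p) =
      (h i ⬝ᵥ r w) * (h i ⬝ᵥ p) + (∑ i, B i) * ((h i ⬝ᵥ p) * (h i ⬝ᵥ p)) := by ring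
    rw [h6]
    linarith
  obtain ⟨ρ, c, hρ, hc, hx⟩ := A.cover (r w + N • p)
  let f0 : W → ℝ := fun u => if u ∈ ρ then c u else 0
  let f : W → ℝ := fun u => if u ∈ σ then 0 else f0 u
  have hf0 : ∀ u, 0 ≤ f0 u := by
    intro u
    simp only [f0]
    split_ifs with h1
    · exact hc u h1
    · exact le_rfl
  have hfρ : ∀ u, f u ≠ 0 → u ∉ σ ∧ u ∈ ρ ∧ c u ≠ 0 := by
    intro u hu
    simp only [f, f0] at hu
    by_cases h1 : u ∈ σ
    · exact absurd (if_pos h1) hu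
    · rw [if_neg h1] at hu
      by_cases h2 : u ∈ ρ
      · rw [if_pos h2] at hu
        exact ⟨h1, h2, hu⟩
      · exact absurd (if_neg h2) hu
  have hadj : ∀ u v, f u ≠ 0 → v ∈ σ → u ≠ v → H.Adj u v := by
    intro u v hu hv hne
    refine (A.adj u v).2 ⟨hne, fun i => ?_⟩
    by_contra hcon
    push Not at hcon
    obtain ⟨_, huρ, hcu⟩ := hfρ u hu
    have hu0 : h i ⬝ᵥ r u ≠ 0 := fun e => by rw [e, zero_mul] at hcon; exact lt_irrefl _ hcon
    have hv0 : h i ⬝ᵥ r v ≠ 0 := fun e => by rw [e, mul_zero] at hcon; exact lt_irrefl _ hcon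
    have h1 : 0 < (h i ⬝ᵥ p) * (h i ⬝ᵥ r v) := by
      rw [hp, Finset.sum_mul]
      have h2 : ∀ x ∈ σ, 0 ≤ (h i ⬝ᵥ r x) * (h i ⬝ᵥ r v) := by
        intro x hx
        by_cases hxv : x = v
        · rw [hxv]; exact mul_self_nonneg _
        · exact ((A.adj x v).1 (hσ x hx v hv hxv)).2 i
      exact lt_of_lt_of_le (mul_self_pos.2 hv0) (Finset.single_le_sum h2 hv)
    have hp0 : h i ⬝ᵥ p ≠ 0 := fun e => by rw [e, zero_mul] at h1; exact lt_irrefl _ h1
    have h3 := hN i hp0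
    have h4 : h i ⬝ᵥ (r w + N • p) = h i ⬝ᵥ r w + N * (h i ⬝ᵥ p) := by
      rw [dotProduct_add, dotProduct_smul, smul_eq_mul]
    have h5 : 0 < (h i ⬝ᵥ (r w + N • p)) * (h i ⬝ᵥ r u) := by
      rw [hx, coef_dot, Finset.sum_mul]
      have h2 : ∀ x ∈ ρ, 0 ≤ c x * (h i ⬝ᵥ r x) * (h i ⬝ᵥ r u) := by
        intro x hx
        rw [mul_assoc]
        refine mul_nonneg (hc x hx) ?_
        by_cases hxu : x = u
        · rw [hxu]; exact mul_self_nonneg _
        · exact ((A.adj x u).1 (hρ x hx u huρ hxu)).2 i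
      refine lt_of_lt_of_le ?_ (Finset.single_le_sum h2 huρ)
      rw [mul_assoc]
      exact mul_pos (lt_of_le_of_ne (hc u huρ) (Ne.symm hcu)) (mul_self_pos.2 hu0)
    rw [← h4] at h3
    have h6 := mul_pos (mul_pos h3 h1) h5
    have h7 : (h i ⬝ᵥ (r w + N • p)) * (h i ⬝ᵥ p) * ((h i ⬝ᵥ p) * (h i ⬝ᵥ r v)) *
        ((h i ⬝ᵥ (r w + N • p)) * (h i ⬝ᵥ r u)) =
        ((h i ⬝ᵥ (r w + N • p)) * (h i ⬝ᵥ p)) ^ 2 * ((h i ⬝ᵥ r u) * (h i ⬝ᵥ r v)) := by ring
    rw [h7] at h6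
    exact absurd h6 (not_lt.2 (mul_nonpos_of_nonneg_of_nonpos (sq_nonneg _) hcon.le))
  refine ⟨f, ?_, fun u hu => (hfρ u hu).1, ?_, ?_⟩
  · intro u
    simp only [f]
    split_ifs
    · exact le_rfl
    · exact hf0 u
  · intro u u' hu hu' hne
    rcases hu with h1 | h1 <;> rcases hu' with h2 | h2
    · exact hσ u h1 u' h2 hne
    · exact (hadj u' u h2 h1 (Ne.symm hne)).symm
    · exact hadj u u' h1 h2 hne
    · exact hρ u (hfρ u h1).2.1 u' (hfρ u' h2).2.1 hne
  · refine ⟨fun u => f0 u - N, ?_⟩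
    have h1 : ∑ u ∈ ρ, c u • r u = ∑ u, f0 u • r u := by
      simp only [f0, ite_smul, zero_smul]
      rw [Finset.sum_ite_mem, Finset.univ_inter]
    have h2 : ∑ u, f0 u • r u = ∑ u ∈ σ, f0 u • r u + ∑ u, f u • r u := by
      have h3 : ∑ u ∈ σ, f0 u • r u = ∑ u, (if u ∈ σ then f0 u else 0) • r u := by
        simp only [ite_smul, zero_smul]
        rw [Finset.sum_ite_mem, Finset.univ_inter]
      rw [h3, ← Finset.sum_add_distrib]
      refine Finset.sum_congr rfl fun u _ => ?_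
      rw [← add_smul]
      congr 1
      simp only [f]
      split_ifs
      · rw [add_zero]
      · rw [zero_add]
    have h4 : r w = ∑ u, f0 u • r u - N • p := by
      rw [← h1, ← hx, add_sub_cancel_right]
    rw [h4, h2]
    have h5 : N • p = ∑ u ∈ σ, N • r u := Finset.smul_sum
    rw [h5]
    simp only [sub_smul]
    rw [Finset.sum_sub_distrib]
    abel

/-- the coefficients exist -/
theorem exists_coef {H : SimpleGraph W} {n m : ℕ} {h : Fin m → Fin n → ℝ} {r : W → Fin n → ℝ}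
    (A : IsArrangementR H n h r) : ∃ F, IsCoef H r F := by
  classical
  choose g hg using fun (σ : {σ : Finset W // Cl H σ}) (w : W) => coef_exists A σ.1 σ.2 w
  let F : Finset W → W → W → ℝ := fun σ u w => if hσ : Cl H σ then g ⟨σ, hσ⟩ w u else 0
  have hF : ∀ σ, Cl H σ → ∀ w, CExp H r σ w (fun u => F σ u w) := by
    intro σ hσ w
    have h1 : (fun u => F σ u w) = g ⟨σ, hσ⟩ w := by
      funext u
      simp only [F, dif_pos hσ]
    rw [h1]
    exact hg ⟨σ, hσ⟩ w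
  have hF0 : ∀ σ, ¬ Cl H σ → ∀ u w, F σ u w = 0 := by
    intro σ hσ u w
    simp only [F, dif_neg hσ]
  refine ⟨F, ?_, ?_, ?_, ?_, ?_, ?_⟩
  · intro σ u w
    by_cases hσ : Cl H σ
    · exact (hF σ hσ w).nonneg u
    · rw [hF0 σ hσ]
  · intro σ u w hu
    by_cases hσ : Cl H σ
    · exact (hF σ hσ w).supp u hu
    · exact absurd (hF0 σ hσ u w) hu
  · intro σ hσ w w' hw τ hτ
    exact coef_key A hw (hF σ hσ w) (hF σ hσ w') τ hτ
  · intro σ hσ w
    exact (hF σ hσ w).expand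
  · intro σ v hv hcl w w' hw hvw u huv
    have hσ : Cl H σ := fun a ha b hb hab =>
      hcl a (Finset.mem_insert_of_mem ha) b (Finset.mem_insert_of_mem hb) hab
    have E : CExp H r (insert v σ) w' (fun x => if x = v then 0 else F σ x w') := by
      refine ⟨?_, ?_, ?_, ?_⟩
      · intro x
        split_ifs
        · exact le_rfl
        · exact (hF σ hσ w').nonneg x
      · intro x hx
        by_cases hxv : x = v
        · exact absurd (if_pos hxv) hx
        · rw [if_neg hxv] at hx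
          have h1 := (hF σ hσ w').supp x hx
          exact fun h2 => (Finset.mem_insert.1 h2).elim hxv h1
      · intro x x' hx hx' hne
        have h1 : ∀ y, (y ∈ insert v σ ∨ (if y = v then 0 else F σ y w') ≠ 0) →
            y ∈ σ ∨ F σ y w ≠ 0 ∨ F σ y w' ≠ 0 := by
          intro y hy
          rcases hy with hy | hy
          · rcases Finset.mem_insert.1 hy with rfl | hy
            · exact Or.inr (Or.inl hvw)
            · exact Or.inl hy
          · by_cases hyv : y = v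
            · exact absurd (if_pos hyv) hy
            · rw [if_neg hyv] at hy
              exact Or.inr (Or.inr hy)
        have h2 : Cl H {x, x'} := coef_key A hw (hF σ hσ w) (hF σ hσ w') {x, x'} (by
          intro y hy
          rcases Finset.mem_insert.1 hy with rfl | hy
          · exact h1 _ hx
          · rw [Finset.mem_singleton.1 hy]
            exact h1 _ hx')
        exact h2 x (by simp) x' (by simp) hne
      · obtain ⟨c, hc⟩ := (hF σ hσ w').expand
        refine ⟨fun x => if x = v then F σ v w' else c x, ?_⟩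
        rw [Finset.sum_insert hv]
        simp only [if_true]
        have h1 : ∑ x ∈ σ, (if x = v then F σ v w' else c x) • r x = ∑ x ∈ σ, c x • r x := by
          refine Finset.sum_congr rfl fun x hx => ?_
          have hxv : x ≠ v := fun e => hv (e ▸ hx)
          rw [if_neg hxv]
        have h2 : ∑ x, F σ x w' • r x =
            F σ v w' • r v + ∑ x, (if x = v then 0 else F σ x w') • r x := by
          have h3 : F σ v w' • r v = ∑ x, (if x = v then F σ x w' else 0) • r x := by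
            simp only [ite_smul, zero_smul]
            rw [Finset.sum_ite_eq' univ v fun x => F σ x w' • r x, if_pos (Finset.mem_univ v)]
          rw [h3, ← Finset.sum_add_distrib]
          refine Finset.sum_congr rfl fun x _ => ?_
          rw [← add_smul]
          congr 1
          split_ifs
          · rw [add_zero]
          · rw [zero_add]
        rw [h1]
        conv_lhs => rw [hc]
        rw [h2]
        abel
    have h1 := congrFun (coef_uniq A E (hF (insert v σ) hcl w')) u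
    simp only [if_neg huv] at h1
    exact h1
  · intro u w
    have hσ : Cl H (∅ : Finset W) := fun a ha => absurd ha (Finset.notMem_empty a)
    have E : CExp H r ∅ w (fun x => if x = w then 1 else 0) := by
      refine ⟨?_, fun x _ => Finset.notMem_empty x, ?_, ?_⟩
      · intro x
        split_ifs
        · exact zero_le_one
        · exact le_rfl
      · intro x x' hx hx' hne
        have h1 : ∀ y, (y ∈ (∅ : Finset W) ∨ (if y = w then (1 : ℝ) else 0) ≠ 0) → y = w := by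
          intro y hy
          rcases hy with hy | hy
          · exact absurd hy (Finset.notMem_empty y)
          · by_contra hyw
            exact hy (if_neg hyw)
        exact absurd ((h1 x hx).trans (h1 x' hx').symm) hne
      · refine ⟨0, ?_⟩
        simp only [ite_smul, zero_smul, one_smul]
        rw [Finset.sum_empty, zero_add, Finset.sum_ite_eq' univ w fun x => r x,
          if_pos (Finset.mem_univ w)]
    exact congrFun (coef_uniq A (hF ∅ hσ w) E) u

end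

end Pool.Agent.H85.Fold3
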