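import Pool.Agent.H85.Fold2.ArrR

/-!
# Project FOLD, third stage: definitions

Folded spheres with linearly independent vectors `a v`, and edge subdivisions.
-/

set_option autoImplicit false

open Finset

namespace Pool.Agent.H85.Fold3

open Pool.Agent.H85.Fold Pool.Agent.H85.Fold2

variable {W : Type} [DecidableEq W] [Fintype W]

/-- a folded sphere whose vectors `a v` can be chosen linearly independent -/
def IsFoldSphereN (H : SimpleGraph W) (n : ℕ) : Prop :=
  IsHomologySphere H n ∧ ∃ (m : ℕ) (p : W → Fin n → ℝ) (a : W → Fin m → ℝ),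
    IsFoldR H p a ∧ LinearIndependent ℝ a

theorem IsFoldSphereN.isFoldSphere {H : SimpleGraph W} {n : ℕ} (h : IsFoldSphereN H n) :
    IsFoldSphere H n := by
  obtain ⟨h1, m, p, a, h2, -⟩ := h
  exact ⟨h1, m, p, a, h2⟩

/-- The subdivision of the edge `u w` (of the clique complex): the edge is removed, and the new
vertex `none` is joined to `u`, `w` and to the common neighbours of `u` and `w`. -/
def subdiv {W : Type} (H : SimpleGraph W) (u w : W) : SimpleGraph (Option W) where
  Adj x y := match x, y with
    | some a, some b => H.Adj a b ∧ ¬ (a = u ∧ b = w) ∧ ¬ (a = w ∧ b = u)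
    | none, some b => b = u ∨ b = w ∨ (H.Adj u b ∧ H.Adj w b)
    | some a, none => a = u ∨ a = w ∨ (H.Adj u a ∧ H.Adj w a)
    | none, none => False
  symm := ⟨fun x y h => by
    rcases x with _ | a <;> rcases y with _ | b <;> simp only at h ⊢
    · exact h
    · exact h
    · exact ⟨h.1.symm, fun hc => h.2.2 ⟨hc.2, hc.1⟩, fun hc => h.2.1 ⟨hc.2, hc.1⟩⟩⟩
  loopless := ⟨fun x h => by
    rcases x with _ | a
    · exact h
    · exact H.loopless.irrefl a h.1⟩

end Pool.Agent.H85.Fold3
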