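import Pool.Agent.H85.Fold3.Coef

/-!
# Project FOLD, third stage: simplicial arrangements have no positive semidefinite stress
-/

set_option autoImplicit false

open Finset

namespace Pool.Agent.H85.Fold3

open Pool.Agent.H85.Fold Pool.Agent.H85.Fold2

variable {W : Type} [DecidableEq W] [Fintype W]

omit [DecidableEq W] in
private theorem ns_expand (X : W → W → ℝ) (hs : ∀ u v, X u v = X v u) (f g : W → ℝ) (t : ℝ) :
    ∑ a, ∑ b, (f a + t * g a) * (f b + t * g b) * X a b =
      ∑ a, ∑ b, f a * f b * X a b + 2 * t * ∑ a, ∑ b, f a * g b * X a b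
        + t ^ 2 * ∑ a, ∑ b, g a * g b * X a b := by
  have h1 : ∑ a, ∑ b, g a * f b * X a b = ∑ a, ∑ b, f a * g b * X a b := by
    rw [Finset.sum_comm]
    refine Finset.sum_congr rfl fun a _ => Finset.sum_congr rfl fun b _ => ?_
    rw [hs b a]
    ring
  have h2 : ∑ a, ∑ b, (f a + t * g a) * (f b + t * g b) * X a b =
      ∑ a, ∑ b, f a * f b * X a b + t * ∑ a, ∑ b, f a * g b * X a b
        + t * ∑ a, ∑ b, g a * f b * X a b + t ^ 2 * ∑ a, ∑ b, g a * g b * X a b := by
    simp only [Finset.mul_sum, ← Finset.sum_add_distrib]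
    refine Finset.sum_congr rfl fun a _ => Finset.sum_congr rfl fun b _ => ?_
    ring
  rw [h2, h1]
  ring

omit [DecidableEq W] in
private theorem ns_cs (X : W → W → ℝ) (hs : ∀ u v, X u v = X v u)
    (hp : ∀ c : W → ℝ, 0 ≤ ∑ u, ∑ v, c u * c v * X u v) (f g : W → ℝ)
    (hg : ∑ a, ∑ b, g a * g b * X a b = 0) : ∑ a, ∑ b, f a * g b * X a b = 0 := by
  by_contra hne
  have h := hp (fun a => f a +
    (-(∑ a, ∑ b, f a * f b * X a b + 1) / (2 * ∑ a, ∑ b, f a * g b * X a b)) * g a)
  rw [ns_expand X hs, hg] at h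
  have h2 : 2 * (-(∑ a, ∑ b, f a * f b * X a b + 1) / (2 * ∑ a, ∑ b, f a * g b * X a b)) *
      ∑ a, ∑ b, f a * g b * X a b = -(∑ a, ∑ b, f a * f b * X a b + 1) := by
    field_simp
  rw [h2] at h
  linarith

private theorem ns_zero {H : SimpleGraph W} {n : ℕ} {r : W → Fin n → ℝ}
    {F : Finset W → W → W → ℝ} (hF : IsCoef H r F) {σ : Finset W} (hσ : Cl H σ) (u : W)
    (hu : ¬ (u ∉ σ ∧ Cl H (insert u σ))) (w : W) : F σ u w = 0 := by
  by_contra hne
  refine hu ⟨hF.supp σ u w hne, hF.clique σ hσ w w (Or.inl rfl) _ fun x hx => ?_⟩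
  rcases Finset.mem_insert.mp hx with rfl | hx
  · exact Or.inr (Or.inl hne)
  · exact Or.inl hx

private theorem ns_claim {H : SimpleGraph W} {n : ℕ} {r : W → Fin n → ℝ}
    (hind : ∀ σ : Finset W, Cl H σ → ∀ c : W → ℝ, ∑ v ∈ σ, c v • r v = 0 → ∀ v ∈ σ, c v = 0)
    {F : Finset W → W → W → ℝ} (hF : IsCoef H r F) (X : W → W → ℝ)
    (hs : ∀ u v, X u v = X v u) (hp : ∀ c : W → ℝ, 0 ≤ ∑ u, ∑ v, c u * c v * X u v)
    (h0 : ∀ u v, u ≠ v → ¬ H.Adj u v → X u v = 0) (hr : ∀ u, ∑ v, X u v • r v = 0) :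
    ∀ (k : ℕ) (σ : Finset W), Fintype.card W - σ.card = k → Cl H σ → ∀ u,
      ∑ a, ∑ b, F σ u a * F σ u b * X a b = 0 := by
  intro k
  induction k using Nat.strong_induction_on with
  | _ k ih =>
    intro σ hk hσ u
    by_cases hu : u ∉ σ ∧ Cl H (insert u σ)
    swap
    · have hz := ns_zero hF hσ u hu
      simp [hz]
    obtain ⟨huσ, hcu⟩ := hu
    -- mixed terms vanish
    have h1 : ∀ v, v ≠ u → ∑ a, ∑ b, F σ u a * F σ v b * X a b = 0 := by
      intro v hvu
      by_cases hv : v ∉ σ ∧ Cl H (insert v σ)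
      swap
      · have hz := ns_zero hF hσ v hv
        simp [hz]
      obtain ⟨hvσ, hcv⟩ := hv
      have hcard : (insert u σ).card = σ.card + 1 := Finset.card_insert_of_notMem huσ
      have hle : (insert u σ).card ≤ Fintype.card W := Finset.card_le_univ _
      have h2 := ih (Fintype.card W - (insert u σ).card) (by omega) (insert u σ) rfl hcu v
      have h3 := ns_cs X hs hp (F σ u) (F (insert u σ) v) h2
      rw [← h3]
      refine Finset.sum_congr rfl fun a _ => Finset.sum_congr rfl fun b _ => ?_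
      by_cases hX : X a b = 0
      · rw [hX]; ring
      by_cases hFa : F σ u a = 0
      · rw [hFa]; ring
      have hab : a = b ∨ H.Adj a b := by
        by_contra hcon
        push Not at hcon
        exact hX (h0 a b hcon.1 hcon.2)
      rw [hF.next σ u huσ hcu a b hab hFa v hvu]
    -- expansion
    choose c hc using fun w => hF.expand σ hσ w
    have h4 : ∑ a, ∑ b, (F σ u a * X a b) • r b = 0 := by
      refine Finset.sum_eq_zero fun a _ => ?_
      have := hr a
      calc ∑ b, (F σ u a * X a b) • r b = F σ u a • ∑ b, X a b • r b := by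
            rw [Finset.smul_sum]
            exact Finset.sum_congr rfl fun b _ => by rw [mul_smul]
        _ = 0 := by rw [this, smul_zero]
    have h5 : ∑ a, ∑ b, (F σ u a * X a b) • r b =
        ∑ w ∈ σ, (∑ a, ∑ b, F σ u a * X a b * c b w) • r w
          + ∑ v, (∑ a, ∑ b, F σ u a * F σ v b * X a b) • r v := by
      have e1 : ∀ a b, (F σ u a * X a b) • r b =
          ∑ w ∈ σ, (F σ u a * X a b * c b w) • r w
            + ∑ v, (F σ u a * F σ v b * X a b) • r v := by
        intro a b
        conv_lhs => rw [hc b]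
        rw [smul_add, Finset.smul_sum, Finset.smul_sum]
        congr 1
        · exact Finset.sum_congr rfl fun w _ => by rw [smul_smul]
        · refine Finset.sum_congr rfl fun w _ => ?_
          rw [smul_smul]
          congr 1
          ring
      simp only [e1, Finset.sum_add_distrib]
      congr 1
      · rw [Finset.sum_congr rfl fun a _ => Finset.sum_comm, Finset.sum_comm]
        refine Finset.sum_congr rfl fun w _ => ?_
        simp only [Finset.sum_smul]
      · rw [Finset.sum_congr rfl fun a _ => Finset.sum_comm, Finset.sum_comm]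
        refine Finset.sum_congr rfl fun w _ => ?_
        simp only [Finset.sum_smul]
    have h6 : ∑ v, (∑ a, ∑ b, F σ u a * F σ v b * X a b) • r v =
        (∑ a, ∑ b, F σ u a * F σ u b * X a b) • r u := by
      refine Finset.sum_eq_single u (fun v _ hv => ?_) fun h => absurd (Finset.mem_univ u) h
      rw [h1 v hv, zero_smul]
    rw [h4, h6] at h5
    set C : W → ℝ := fun w => if w = u then ∑ a, ∑ b, F σ u a * F σ u b * X a b
      else ∑ a, ∑ b, F σ u a * X a b * c b w with hC
    have h7 : ∑ w ∈ insert u σ, C w • r w = 0 := by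
      rw [Finset.sum_insert huσ, h5, add_comm]
      congr 1
      · refine Finset.sum_congr rfl fun w hw => ?_
        have : w ≠ u := fun h => huσ (h ▸ hw)
        simp only [hC, if_neg this]
      · simp only [hC, if_true]
    have h8 := hind (insert u σ) hcu C h7 u (Finset.mem_insert_self u σ)
    simpa only [hC, if_true] using h8

/-- A positive semidefinite stress vanishes. -/
theorem no_stress_of_coef {H : SimpleGraph W} {n : ℕ} {r : W → Fin n → ℝ}
    (hind : ∀ σ : Finset W, Cl H σ → ∀ c : W → ℝ, ∑ v ∈ σ, c v • r v = 0 → ∀ v ∈ σ, c v = 0)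
    {F : Finset W → W → W → ℝ} (hF : IsCoef H r F) (X : W → W → ℝ)
    (hs : ∀ u v, X u v = X v u) (hp : ∀ c : W → ℝ, 0 ≤ ∑ u, ∑ v, c u * c v * X u v)
    (h0 : ∀ u v, u ≠ v → ¬ H.Adj u v → X u v = 0) (hr : ∀ u, ∑ v, X u v • r v = 0) :
    ∀ u v, X u v = 0 := by
  intro u v
  have hcl : Cl H (∅ : Finset W) := fun a ha => absurd ha (Finset.notMem_empty a)
  have h1 := ns_claim hind hF X hs hp h0 hr _ ∅ rfl hcl v
  have h2 := ns_cs X hs hp (F ∅ u) (F ∅ v) h1
  have h3 : ∑ a, ∑ b, F ∅ u a * F ∅ v b * X a b = X u v := by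
    simp only [hF.empty]
    rw [Finset.sum_eq_single u, Finset.sum_eq_single v]
    · simp
    · intro b _ hb
      simp [hb.symm]
    · intro h; exact absurd (Finset.mem_univ v) h
    · intro a _ ha
      simp [ha.symm]
    · intro h; exact absurd (Finset.mem_univ u) h
  rw [← h3, h2]

theorem no_stress {H : SimpleGraph W} {n m : ℕ} {h : Fin m → Fin n → ℝ} {r : W → Fin n → ℝ}
    (A : IsArrangementR H n h r) (X : W → W → ℝ)
    (hs : ∀ u v, X u v = X v u) (hp : ∀ c : W → ℝ, 0 ≤ ∑ u, ∑ v, c u * c v * X u v)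
    (h0 : ∀ u v, u ≠ v → ¬ H.Adj u v → X u v = 0) (hr : ∀ u, ∑ v, X u v • r v = 0) :
    ∀ u v, X u v = 0 := by
  obtain ⟨F, hF⟩ := exists_coef A
  exact no_stress_of_coef A.indep hF X hs hp h0 hr

end Pool.Agent.H85.Fold3
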