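import Pool.Agent.H85.Fold3.Defs3

/-!
# Project FOLD, third stage: complexes with the homology of a sphere
-/

set_option autoImplicit false
set_option linter.unusedSectionVars false

open Finset

namespace Pool.Agent.H85.Fold3

open Pool.Agent.H85.Fold Pool.Agent.H85.Fold2

variable {V : Type} [DecidableEq V] [Fintype V]

/-- the complex `Δ` has no homology below degree `m`, and one-dimensional homology in degree `m`,
which is its top degree (degree = number of vertices of a simplex) -/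
structure Sph (Δ : Finset V → Prop) (m : ℕ) : Prop where
  down : ∀ σ τ, Δ σ → τ ⊆ σ → Δ τ
  dim : ∀ σ, Δ σ → σ.card ≤ m
  low : ∀ ν : V → ℕ, Function.Injective ν → ∀ j, j < m → ∀ z : Finset V → ℝ,
    (∀ σ, z σ ≠ 0 → Δ σ ∧ σ.card = j) → bd ν z = 0 →
    ∃ y : Finset V → ℝ, (∀ σ, y σ ≠ 0 → Δ σ ∧ σ.card = j + 1) ∧ bd ν y = z
  top : ∀ ν : V → ℕ, Function.Injective ν → ∃ o : Finset V → ℝ,
    (∀ σ, o σ ≠ 0 → Δ σ ∧ σ.card = m) ∧ bd ν o = 0 ∧ o ≠ 0 ∧
      ∀ z : Finset V → ℝ, (∀ σ, z σ ≠ 0 → Δ σ ∧ σ.card = m) → bd ν z = 0 → ∃ r : ℝ, z = r • o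

private theorem cl_subset {G : SimpleGraph V} {σ τ : Finset V} (h : Cl G σ) (hs : τ ⊆ σ) :
    Cl G τ := fun u hu v hv huv => h u (hs hu) v (hs hv) huv

/-- homology spheres in terms of their links -/
theorem isHomologySphere_iff (G : SimpleGraph V) (n : ℕ) :
    IsHomologySphere G n ↔ ∀ ρ, Cl G ρ → ρ.card ≤ n ∧
      Sph (fun σ => Disjoint σ ρ ∧ Cl G (σ ∪ ρ)) (n - ρ.card) := by
  constructor
  · intro h ρ hρ
    have hle := h.dim ρ hρ
    refine ⟨hle, ?_, ?_, ?_, ?_⟩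
    · rintro σ τ ⟨h1, h2⟩ hs
      exact ⟨Finset.disjoint_of_subset_left hs h1,
        cl_subset h2 (Finset.union_subset_union hs (Finset.Subset.refl ρ))⟩
    · rintro σ ⟨h1, h2⟩
      have h3 := h.dim _ h2
      rw [Finset.card_union_of_disjoint h1] at h3
      omega
    · intro ν hν j hj z hz hc
      obtain ⟨y, y1, y2⟩ := h.low ν hν ρ hρ j (by omega) z
        (fun σ hσ => ⟨(hz σ hσ).1.1, (hz σ hσ).1.2, (hz σ hσ).2⟩) hc
      exact ⟨y, fun σ hσ => ⟨⟨(y1 σ hσ).1, (y1 σ hσ).2.1⟩, (y1 σ hσ).2.2⟩, y2⟩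
    · intro ν hν
      obtain ⟨o, o1, o2, o3, o4⟩ := h.top ν hν ρ hρ (n - ρ.card) (by omega)
      refine ⟨o, fun σ hσ => ⟨⟨(o1 σ hσ).1, (o1 σ hσ).2.1⟩, (o1 σ hσ).2.2⟩, o2, o3, ?_⟩
      intro z hz hc
      exact o4 z (fun σ hσ => ⟨(hz σ hσ).1.1, (hz σ hσ).1.2, (hz σ hσ).2⟩) hc
  · intro h
    refine ⟨fun σ hσ => (h σ hσ).1, ?_, ?_⟩
    · intro ν hν ρ hρ j hj z hz hc
      obtain ⟨y, y1, y2⟩ := (h ρ hρ).2.low ν hν j (by omega) z
        (fun σ hσ => ⟨⟨(hz σ hσ).1, (hz σ hσ).2.1⟩, (hz σ hσ).2.2⟩) hc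
      exact ⟨y, fun σ hσ => ⟨(y1 σ hσ).1.1, (y1 σ hσ).1.2, (y1 σ hσ).2⟩, y2⟩
    · intro ν hν ρ hρ j hj
      obtain ⟨o, o1, o2, o3, o4⟩ := (h ρ hρ).2.top ν hν
      have hj' : n - ρ.card = j := by omega
      rw [hj'] at o1 o4
      refine ⟨o, fun σ hσ => ⟨(o1 σ hσ).1.1, (o1 σ hσ).1.2, (o1 σ hσ).2⟩, o2, o3, ?_⟩
      intro z hz hc
      exact o4 z (fun σ hσ => ⟨⟨(hz σ hσ).1, (hz σ hσ).2.1⟩, (hz σ hσ).2.2⟩) hc

section Map

variable {V' : Type} [DecidableEq V'] [Fintype V']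

private theorem sgn_map (φ : V ↪ V') (ν' : V' → ℕ) (v : V) (σ : Finset V) :
    sgn ν' (φ v) (σ.map φ) = sgn (fun x => ν' (φ x)) v σ := by
  unfold sgn
  rw [Finset.filter_map, Finset.card_map]
  rfl

private theorem bd_pull (φ : V ↪ V') (ν' : V' → ℕ) (z' : Finset V' → ℝ)
    (hz : ∀ σ', z' σ' ≠ 0 → ∃ σ : Finset V, σ' = σ.map φ) (ρ : Finset V) :
    bd ν' z' (ρ.map φ) = bd (fun x => ν' (φ x)) (fun σ => z' (σ.map φ)) ρ := by
  change ∑ v' ∈ (ρ.map φ)ᶜ, sgn ν' v' (ρ.map φ) • z' (insert v' (ρ.map φ)) =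
    ∑ v ∈ ρᶜ, sgn (fun x => ν' (φ x)) v ρ • z' ((insert v ρ).map φ)
  have h1 : ρᶜ.map φ ⊆ (ρ.map φ)ᶜ := by
    intro v' hv'
    rw [Finset.mem_map] at hv'
    obtain ⟨v, hv, rfl⟩ := hv'
    rw [Finset.mem_compl] at hv ⊢
    intro h
    exact hv ((Finset.mem_map' φ).1 h)
  rw [← Finset.sum_subset h1, Finset.sum_map]
  · refine Finset.sum_congr rfl ?_
    intro v _
    rw [sgn_map, Finset.map_insert]
  · intro v' hv' hn
    by_contra hne
    have h2 : z' (insert v' (ρ.map φ)) ≠ 0 := by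
      intro h0
      exact hne (by rw [h0, smul_zero])
    obtain ⟨σ, hσ⟩ := hz _ h2
    have h3 : v' ∈ σ.map φ := hσ ▸ Finset.mem_insert_self _ _
    rw [Finset.mem_map] at h3
    obtain ⟨v, _, rfl⟩ := h3
    apply hn
    rw [Finset.mem_map' φ, Finset.mem_compl]
    intro h4
    exact (Finset.mem_compl.1 hv') ((Finset.mem_map' φ).2 h4)

open Classical in
/-- the image of a chain -/
private noncomputable def push (φ : V ↪ V') (z : Finset V → ℝ) : Finset V' → ℝ :=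
  fun σ' => if h : ∃ σ : Finset V, σ' = σ.map φ then z h.choose else 0

private theorem push_map (φ : V ↪ V') (z : Finset V → ℝ) (σ : Finset V) :
    push φ z (σ.map φ) = z σ := by
  have h : ∃ τ : Finset V, σ.map φ = τ.map φ := ⟨σ, rfl⟩
  unfold push
  rw [dif_pos h]
  exact congrArg z (Finset.map_injective φ h.choose_spec).symm

private theorem push_ne (φ : V ↪ V') (z : Finset V → ℝ) (σ' : Finset V')
    (h : push φ z σ' ≠ 0) : ∃ σ : Finset V, z σ ≠ 0 ∧ σ' = σ.map φ := by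
  by_cases h1 : ∃ σ : Finset V, σ' = σ.map φ
  · obtain ⟨σ, rfl⟩ := h1
    rw [push_map] at h
    exact ⟨σ, h, rfl⟩
  · exfalso
    apply h
    unfold push
    exact dif_neg h1

private theorem push_pull (φ : V ↪ V') (z' : Finset V' → ℝ)
    (hz : ∀ σ', z' σ' ≠ 0 → ∃ σ : Finset V, σ' = σ.map φ) :
    push φ (fun σ => z' (σ.map φ)) = z' := by
  funext σ'
  by_cases h1 : ∃ σ : Finset V, σ' = σ.map φ
  · obtain ⟨σ, rfl⟩ := h1
    rw [push_map]
  · have h2 : z' σ' = 0 := by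
      by_contra h
      exact h1 (hz σ' h)
    rw [h2]
    unfold push
    exact dif_neg h1

private theorem bd_push (φ : V ↪ V') (ν' : V' → ℕ) (z : Finset V → ℝ) :
    bd ν' (push φ z) = push φ (bd (fun x => ν' (φ x)) z) := by
  funext ρ'
  by_cases h1 : ∃ ρ : Finset V, ρ' = ρ.map φ
  · obtain ⟨ρ, rfl⟩ := h1
    rw [push_map, bd_pull φ ν' (push φ z)
      (fun σ' h => (push_ne φ z σ' h).imp fun _ h => h.2)]
    exact congrArg (fun g => bd (fun x => ν' (φ x)) g ρ) (funext fun σ => push_map φ z σ)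
  · have h2 : push φ (bd (fun x => ν' (φ x)) z) ρ' = 0 := by
      unfold push
      exact dif_neg h1
    rw [h2]
    change ∑ v' ∈ ρ'ᶜ, sgn ν' v' ρ' • push φ z (insert v' ρ') = 0
    refine Finset.sum_eq_zero ?_
    intro v' _
    have h3 : push φ z (insert v' ρ') = 0 := by
      by_contra h
      obtain ⟨σ, _, hσ⟩ := push_ne φ z _ h
      have h4 : ρ' ⊆ σ.map φ := hσ ▸ Finset.subset_insert v' ρ'
      obtain ⟨τ, _, hτ⟩ := Finset.subset_map_iff.1 h4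
      exact h1 ⟨τ, hτ⟩
    rw [h3, smul_zero]

/-- images under injective maps -/
theorem Sph.map {V' : Type} [DecidableEq V'] [Fintype V'] {Δ : Finset V → Prop} {m : ℕ}
    (h : Sph Δ m) (φ : V ↪ V') : Sph (fun σ' => ∃ σ, Δ σ ∧ σ' = σ.map φ) m := by
  have hinj : ∀ ν' : V' → ℕ, Function.Injective ν' →
      Function.Injective (fun x => ν' (φ x)) := fun ν' hν' => hν'.comp φ.injective
  have hpull : ∀ j (z' : Finset V' → ℝ),
      (∀ σ', z' σ' ≠ 0 → (∃ σ, Δ σ ∧ σ' = σ.map φ) ∧ σ'.card = j) →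
      ∀ σ, z' (σ.map φ) ≠ 0 → Δ σ ∧ σ.card = j := by
    intro j z' hz σ hσ
    obtain ⟨⟨τ, h1, h2⟩, h3⟩ := hz _ hσ
    rw [Finset.map_injective φ h2, ← Finset.card_map φ, ← h2]
    exact ⟨h1, h3⟩
  have hsup : ∀ j (z' : Finset V' → ℝ),
      (∀ σ', z' σ' ≠ 0 → (∃ σ, Δ σ ∧ σ' = σ.map φ) ∧ σ'.card = j) →
      ∀ σ', z' σ' ≠ 0 → ∃ σ : Finset V, σ' = σ.map φ :=
    fun j z' hz σ' hσ' => (hz σ' hσ').1.imp fun _ h => h.2
  have hpush : ∀ j (z : Finset V → ℝ), (∀ σ, z σ ≠ 0 → Δ σ ∧ σ.card = j) →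
      ∀ σ', push φ z σ' ≠ 0 → (∃ σ, Δ σ ∧ σ' = σ.map φ) ∧ σ'.card = j := by
    intro j z hz σ' hσ'
    obtain ⟨σ, h1, rfl⟩ := push_ne φ z σ' hσ'
    exact ⟨⟨σ, (hz σ h1).1, rfl⟩, by rw [Finset.card_map]; exact (hz σ h1).2⟩
  have hcyc : ∀ (ν' : V' → ℕ) j (z' : Finset V' → ℝ),
      (∀ σ', z' σ' ≠ 0 → (∃ σ, Δ σ ∧ σ' = σ.map φ) ∧ σ'.card = j) → bd ν' z' = 0 →
      bd (fun x => ν' (φ x)) (fun σ => z' (σ.map φ)) = 0 := by
    intro ν' j z' hz hc
    funext ρ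
    rw [← bd_pull φ ν' z' (hsup j z' hz), hc]
    rfl
  refine ⟨?_, ?_, ?_, ?_⟩
  · rintro σ' τ' ⟨σ, h1, rfl⟩ hs
    obtain ⟨τ, h2, rfl⟩ := Finset.subset_map_iff.1 hs
    exact ⟨τ, h.down σ τ h1 h2, rfl⟩
  · rintro σ' ⟨σ, h1, rfl⟩
    rw [Finset.card_map]
    exact h.dim σ h1
  · intro ν' hν' j hj z' hz hc
    obtain ⟨y, y1, y2⟩ := h.low _ (hinj ν' hν') j hj _ (hpull j z' hz) (hcyc ν' j z' hz hc)
    refine ⟨push φ y, hpush (j + 1) y y1, ?_⟩
    rw [bd_push, y2, push_pull φ z' (hsup j z' hz)]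
  · intro ν' hν'
    obtain ⟨o, o1, o2, o3, o4⟩ := h.top _ (hinj ν' hν')
    refine ⟨push φ o, hpush m o o1, ?_, ?_, ?_⟩
    · rw [bd_push, o2]
      funext σ'
      by_contra hne
      obtain ⟨σ, h1, _⟩ := push_ne φ _ σ' hne
      exact h1 rfl
    · intro h0
      apply o3
      funext σ
      rw [← push_map φ o σ, h0]
      rfl
    · intro z' hz hc
      obtain ⟨r, hr⟩ := o4 _ (hpull m z' hz) (hcyc ν' m z' hz hc)
      refine ⟨r, ?_⟩
      rw [← push_pull φ z' (hsup m z' hz), hr]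
      funext σ'
      by_cases h1 : ∃ σ : Finset V, σ' = σ.map φ
      · obtain ⟨σ, rfl⟩ := h1
        rw [push_map, Pi.smul_apply, Pi.smul_apply, push_map]
      · unfold push
        rw [Pi.smul_apply, dif_neg h1, dif_neg h1, smul_zero]

end Map

section Susp

private theorem wedge_supp {Δ : Finset V → Prop} {u w : V} (huw : u ≠ w)
    (hw : ∀ σ, Δ σ → w ∉ σ) {j : ℕ} (ν : V → ℕ) (g : Finset V → ℝ)
    (hg : ∀ σ, g σ ≠ 0 → Δ σ ∧ σ.card = j) (σ : Finset V) (hσ : wedge ν u g σ ≠ 0) :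
    (u ∈ σ ∧ w ∉ σ) ∧ Δ (σ.erase u) ∧ σ.card = j + 1 := by
  by_cases hu : u ∈ σ
  · have h1 : g (σ.erase u) ≠ 0 := by
      intro h0
      apply hσ
      change (if u ∈ σ then sgn ν u σ • g (σ.erase u) else 0) = 0
      rw [if_pos hu, h0, smul_zero]
    obtain ⟨h2, h3⟩ := hg _ h1
    refine ⟨⟨hu, fun hwσ => hw _ h2 (Finset.mem_erase.2 ⟨huw.symm, hwσ⟩)⟩, h2, ?_⟩
    rw [← h3, Finset.card_erase_add_one hu]
  · exfalso
    exact hσ (if_neg hu)

private theorem comp_supp {Δ : Finset V → Prop} {u w : V}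
    {j : ℕ} (ν : V → ℕ) (z : Finset V → ℝ)
    (hz : ∀ σ, z σ ≠ 0 → (¬ (u ∈ σ ∧ w ∈ σ) ∧ Δ ((σ.erase u).erase w)) ∧ σ.card = j)
    (σ : Finset V) (hσ : comp ν u z σ ≠ 0) : Δ σ ∧ σ.card + 1 = j := by
  by_cases hu : u ∈ σ
  · exfalso
    exact hσ (if_pos hu)
  · have h1 : z (insert u σ) ≠ 0 := by
      intro h0
      apply hσ
      change (if u ∈ σ then 0 else sgn ν u σ • z (insert u σ)) = 0
      rw [if_neg hu, h0, smul_zero]
    obtain ⟨⟨h2, h3⟩, h4⟩ := hz _ h1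
    have h5 : w ∉ σ := fun h => h2 ⟨Finset.mem_insert_self u σ, Finset.mem_insert_of_mem h⟩
    rw [Finset.erase_insert hu, Finset.erase_eq_of_notMem h5] at h3
    rw [Finset.card_insert_of_notMem hu] at h4
    exact ⟨h3, h4⟩

private theorem wedge_comp (ν : V → ℕ) (v : V) (z : Finset V → ℝ) (σ : Finset V) (hv : v ∈ σ) :
    wedge ν v (comp ν v z) σ = z σ := by
  have h := eq_wedge_comp ν v z σ
  rw [if_pos hv, zero_add] at h
  exact h.symm

/-- suspensions -/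
theorem Sph.susp {Δ : Finset V → Prop} {m : ℕ} (h : Sph Δ m) {u w : V} (huw : u ≠ w)
    (hu : ∀ σ, Δ σ → u ∉ σ) (hw : ∀ σ, Δ σ → w ∉ σ) :
    Sph (fun σ => ¬ (u ∈ σ ∧ w ∈ σ) ∧ Δ ((σ.erase u).erase w)) (m + 1) := by
  have hdec : ∀ (ν : V → ℕ), Function.Injective ν → ∀ (j : ℕ) (z : Finset V → ℝ),
      (∀ σ, z σ ≠ 0 → (¬ (u ∈ σ ∧ w ∈ σ) ∧ Δ ((σ.erase u).erase w)) ∧ σ.card = j) →
      bd ν z = 0 →
      ∃ a b c : Finset V → ℝ, (∀ σ, a σ ≠ 0 → Δ σ ∧ σ.card + 1 = j) ∧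
        (∀ σ, b σ ≠ 0 → Δ σ ∧ σ.card + 1 = j) ∧ (∀ σ, c σ ≠ 0 → Δ σ ∧ σ.card = j) ∧
        z = wedge ν u a + wedge ν w b + c ∧ bd ν a = 0 ∧ bd ν b = 0 ∧ a + b + bd ν c = 0 := by
    intro ν hν j z hz hc
    have ha := comp_supp (u := u) (w := w) ν z hz
    have hb := comp_supp (u := w) (w := u) ν z
      (fun σ hσ => ⟨⟨fun hh => (hz σ hσ).1.1 ⟨hh.2, hh.1⟩, by
        rw [Finset.erase_right_comm]; exact (hz σ hσ).1.2⟩, (hz σ hσ).2⟩)
    have hcc : ∀ σ, (fun σ => if u ∈ σ ∨ w ∈ σ then (0 : ℝ) else z σ) σ ≠ 0 →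
        Δ σ ∧ σ.card = j := by
      intro σ hσ
      change (if u ∈ σ ∨ w ∈ σ then (0 : ℝ) else z σ) ≠ 0 at hσ
      by_cases h1 : u ∈ σ ∨ w ∈ σ
      · rw [if_pos h1] at hσ
        exact absurd rfl hσ
      · rw [if_neg h1] at hσ
        push Not at h1
        obtain ⟨⟨_, h3⟩, h4⟩ := hz σ hσ
        rw [Finset.erase_eq_of_notMem h1.1, Finset.erase_eq_of_notMem h1.2] at h3
        exact ⟨h3, h4⟩
    have hba : bd ν (comp ν u z) = 0 := by
      have h1 := comp_bd ν hν u z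
      rw [hc, map_zero] at h1
      exact neg_eq_zero.1 h1.symm
    have hbb : bd ν (comp ν w z) = 0 := by
      have h1 := comp_bd ν hν w z
      rw [hc, map_zero] at h1
      exact neg_eq_zero.1 h1.symm
    have hsum : z = wedge ν u (comp ν u z) + wedge ν w (comp ν w z) +
        (fun σ => if u ∈ σ ∨ w ∈ σ then (0 : ℝ) else z σ) := by
      funext σ
      rw [Pi.add_apply, Pi.add_apply]
      by_cases h1 : u ∈ σ
      · rw [wedge_comp ν u z σ h1]
        by_cases h2 : w ∈ σ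
        · rw [wedge_comp ν w z σ h2, if_pos (Or.inl h1)]
          have h3 : z σ = 0 := by
            by_contra hne
            exact (hz σ hne).1.1 ⟨h1, h2⟩
          rw [h3]
          ring
        · have h3 : wedge ν w (comp ν w z) σ = 0 := if_neg h2
          rw [h3, if_pos (Or.inl h1)]
          ring
      · have h3 : wedge ν u (comp ν u z) σ = 0 := if_neg h1
        by_cases h2 : w ∈ σ
        · rw [wedge_comp ν w z σ h2, h3, if_pos (Or.inr h2)]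
          ring
        · have h4 : wedge ν w (comp ν w z) σ = 0 := if_neg h2
          rw [h3, h4, if_neg (fun hh => hh.elim h1 h2)]
          ring
    refine ⟨comp ν u z, comp ν w z, _, ha, hb, hcc, hsum, hba, hbb, ?_⟩
    have h1 : bd ν z = 0 := hc
    have e1 : bd ν (wedge ν u (comp ν u z)) = comp ν u z := by
      rw [bd_wedge ν hν u (comp ν u z) (fun σ hσ => if_pos hσ), hba, map_zero, sub_zero]
    have e2 : bd ν (wedge ν w (comp ν w z)) = comp ν w z := by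
      rw [bd_wedge ν hν w (comp ν w z) (fun σ hσ => if_pos hσ), hbb, map_zero, sub_zero]
    rw [hsum, map_add, map_add, e1, e2] at h1
    exact h1
  have hzero : ∀ (v : V) (g : Finset V → ℝ) (j : ℕ), (∀ σ, Δ σ → v ∉ σ) →
      (∀ σ, g σ ≠ 0 → Δ σ ∧ σ.card = j) → ∀ σ, v ∈ σ → g σ = 0 := by
    intro v g j hv hg σ hσ
    by_contra hne
    exact hv σ (hg σ hne).1 hσ
  have hsuppu : ∀ (ν : V → ℕ) (g : Finset V → ℝ) (j : ℕ), (∀ σ, g σ ≠ 0 → Δ σ ∧ σ.card = j) →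
      ∀ σ, wedge ν u g σ ≠ 0 →
        (¬ (u ∈ σ ∧ w ∈ σ) ∧ Δ ((σ.erase u).erase w)) ∧ σ.card = j + 1 := by
    intro ν g j hg σ hσ
    obtain ⟨⟨h1, h2⟩, h3, h4⟩ := wedge_supp huw hw ν g hg σ hσ
    refine ⟨⟨fun hh => h2 hh.2, ?_⟩, h4⟩
    rw [Finset.erase_eq_of_notMem (fun hh => h2 (Finset.mem_of_mem_erase hh))]
    exact h3
  have hsuppw : ∀ (ν : V → ℕ) (g : Finset V → ℝ) (j : ℕ), (∀ σ, g σ ≠ 0 → Δ σ ∧ σ.card = j) →
      ∀ σ, wedge ν w g σ ≠ 0 →
        (¬ (u ∈ σ ∧ w ∈ σ) ∧ Δ ((σ.erase u).erase w)) ∧ σ.card = j + 1 := by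
    intro ν g j hg σ hσ
    obtain ⟨⟨h1, h2⟩, h3, h4⟩ := wedge_supp huw.symm hu ν g hg σ hσ
    refine ⟨⟨fun hh => h2 hh.1, ?_⟩, h4⟩
    rw [Finset.erase_eq_of_notMem h2]
    exact h3
  refine ⟨?_, ?_, ?_, ?_⟩
  · rintro σ τ ⟨h1, h2⟩ hs
    exact ⟨fun hh => h1 ⟨hs hh.1, hs hh.2⟩,
      h.down _ _ h2 (Finset.erase_subset_erase w (Finset.erase_subset_erase u hs))⟩
  · rintro σ ⟨h1, h2⟩
    have h3 := h.dim _ h2
    by_cases hu' : u ∈ σ
    · have hw' : w ∉ σ := fun hh => h1 ⟨hu', hh⟩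
      rw [Finset.erase_eq_of_notMem (fun hh => hw' (Finset.mem_of_mem_erase hh)),
        Finset.card_erase_of_mem hu'] at h3
      omega
    · rw [Finset.erase_eq_of_notMem hu'] at h3
      have h4 := Finset.pred_card_le_card_erase (s := σ) (a := w)
      omega
  · intro ν hν j hj z hz hc
    obtain ⟨a, b, c, ha, hb, hcs, hsum, hba, hbb, habc⟩ := hdec ν hν j z hz hc
    have hex : ∃ a' : Finset V → ℝ, (∀ σ, a' σ ≠ 0 → Δ σ ∧ σ.card = j) ∧ bd ν a' = a := by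
      rcases j with _ | k
      · refine ⟨0, fun σ hσ => absurd rfl hσ, ?_⟩
        rw [map_zero]
        funext σ
        by_contra hne
        have h1 := (ha σ (fun h0 => hne h0.symm)).2
        omega
      · obtain ⟨y, y1, y2⟩ := h.low ν hν k (by omega) a
          (fun σ hσ => ⟨(ha σ hσ).1, Nat.succ_injective (ha σ hσ).2⟩) hba
        exact ⟨y, y1, y2⟩
    obtain ⟨a', ha', hbda⟩ := hex
    have hca : ∀ σ, (c + a') σ ≠ 0 → Δ σ ∧ σ.card = j := by
      intro σ hσ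
      by_cases h1 : c σ = 0
      · refine ha' σ (fun h2 => hσ ?_)
        rw [Pi.add_apply, h1, h2, add_zero]
      · exact hcs σ h1
    refine ⟨wedge ν w (c + a') - wedge ν u a', ?_, ?_⟩
    · intro σ hσ
      by_cases h1 : wedge ν w (c + a') σ = 0
      · refine hsuppu ν a' j ha' σ (fun h2 => hσ ?_)
        rw [Pi.sub_apply, h1, h2, sub_zero]
      · exact hsuppw ν _ j hca σ h1
    · rw [map_sub, bd_wedge ν hν w _ (hzero w _ j hw hca),
        bd_wedge ν hν u _ (hzero u _ j hu ha'), map_add, hbda]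
      have h1 : bd ν c + a = -b := by
        have h2 : bd ν c + a + b = 0 := by
          rw [← habc]
          abel
        exact eq_neg_of_add_eq_zero_left h2
      rw [h1, map_neg, hsum]
      abel
  · intro ν hν
    obtain ⟨o, o1, o2, o3, o4⟩ := h.top ν hν
    refine ⟨wedge ν u o - wedge ν w o, ?_, ?_, ?_, ?_⟩
    · intro σ hσ
      by_cases h1 : wedge ν w o σ = 0
      · refine hsuppu ν o m o1 σ (fun h2 => hσ ?_)
        rw [Pi.sub_apply, h1, h2, sub_zero]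
      · exact hsuppw ν _ m o1 σ h1
    · rw [map_sub, bd_wedge ν hν w _ (hzero w _ m hw o1),
        bd_wedge ν hν u _ (hzero u _ m hu o1), o2, map_zero, map_zero, sub_self]
    · intro h0
      apply o3
      have h1 : comp ν u (wedge ν u o - wedge ν w o) = o := by
        rw [map_sub, comp_wedge_self ν u o (hzero u _ m hu o1),
          comp_wedge ν hν w u huw.symm o]
        have h2 : comp ν u o = 0 := by
          funext σ
          by_contra hne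
          by_cases h3 : u ∈ σ
          · exact hne (if_pos h3)
          · apply hne
            change (if u ∈ σ then 0 else sgn ν u σ • o (insert u σ)) = 0
            rw [if_neg h3, hzero u _ m hu o1 _ (Finset.mem_insert_self u σ), smul_zero]
        rw [h2, map_zero, neg_zero, sub_zero]
      rw [← h1, h0, map_zero]
    · intro z hz hc
      obtain ⟨a, b, c, ha, hb, hcs, hsum, hba, hbb, habc⟩ := hdec ν hν (m + 1) z hz hc
      have hc0 : c = 0 := by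
        funext σ
        by_contra hne
        obtain ⟨h1, h2⟩ := hcs σ hne
        have h3 := h.dim σ h1
        omega
      obtain ⟨r, hr⟩ := o4 a
        (fun σ hσ => ⟨(ha σ hσ).1, Nat.succ_injective (ha σ hσ).2⟩) hba
      rw [hc0, map_zero, add_zero] at habc
      have hb' : b = -a := eq_neg_of_add_eq_zero_right habc
      refine ⟨r, ?_⟩
      rw [hsum, hc0, hb', hr, map_neg, map_smul, map_smul, smul_sub]
      abel

end Susp

end Pool.Agent.H85.Fold3
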