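import Pool.Agent.H85.Fold3.Sph

/-!
# Project FOLD, third stage: edge subdivisions of complexes with the homology of a sphere
-/

set_option autoImplicit false
set_option linter.unusedSectionVars false
set_option linter.unusedVariables false

open Finset

namespace Pool.Agent.H85.Fold3

open Pool.Agent.H85.Fold Pool.Agent.H85.Fold2

variable {V : Type} [DecidableEq V] [Fintype V]

/-- the subdivision of the edge `u w` by the new vertex `x` -/
def SubD (Δ : Finset V → Prop) (u w x : V) (σ : Finset V) : Prop :=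
  ¬ (u ∈ σ ∧ w ∈ σ) ∧ (x ∉ σ ∧ Δ σ ∨ x ∈ σ ∧ Δ (insert u (insert w (σ.erase x))))

section Alg

private theorem ss_wp (ν : V → ℕ) (v : V) (g : Finset V → ℝ) (σ : Finset V) (h : v ∈ σ) :
    wedge ν v g σ = sgn ν v σ * g (σ.erase v) := if_pos h

private theorem ss_wn (ν : V → ℕ) (v : V) (g : Finset V → ℝ) (σ : Finset V) (h : v ∉ σ) :
    wedge ν v g σ = 0 := if_neg h

private theorem ss_cp (ν : V → ℕ) (v : V) (c : Finset V → ℝ) (σ : Finset V) (h : v ∈ σ) :
    comp ν v c σ = 0 := if_pos h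

private theorem ss_cn (ν : V → ℕ) (v : V) (c : Finset V → ℝ) (σ : Finset V) (h : v ∉ σ) :
    comp ν v c σ = sgn ν v σ * c (insert v σ) := if_neg h

private theorem ss_wc (ν : V → ℕ) (v : V) (c : Finset V → ℝ) (σ : Finset V) :
    wedge ν v (comp ν v c) σ = if v ∈ σ then c σ else 0 := by
  have h := eq_wedge_comp ν v c σ
  by_cases hv : v ∈ σ
  · rw [if_pos hv] at h ⊢
    linarith
  · rw [if_neg hv, ss_wn _ _ _ _ hv]

private theorem ss_cw (ν : V → ℕ) (v : V) (g : Finset V → ℝ) :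
    comp ν v (wedge ν v g) = g - wedge ν v (comp ν v g) := by
  funext σ
  rw [Pi.sub_apply, ss_wc]
  by_cases hv : v ∈ σ
  · rw [ss_cp _ _ _ _ hv, if_pos hv, sub_self]
  · rw [ss_cn _ _ _ _ hv, ss_wp _ _ _ _ (Finset.mem_insert_self _ _), Finset.erase_insert hv,
      if_neg hv, sub_zero, ← mul_assoc, sgn_insert_self, sgn_sq, one_mul]

private theorem ss_ww (ν : V → ℕ) (v : V) (g : Finset V → ℝ) :
    wedge ν v (wedge ν v g) = 0 := by
  funext σ
  by_cases hv : v ∈ σ
  · rw [ss_wp _ _ _ _ hv, ss_wn _ _ _ _ (Finset.notMem_erase v σ), mul_zero, Pi.zero_apply]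
  · rw [ss_wn _ _ _ _ hv, Pi.zero_apply]

private theorem ss_cc (ν : V → ℕ) (v : V) (g : Finset V → ℝ) :
    comp ν v (comp ν v g) = 0 := by
  funext σ
  by_cases hv : v ∈ σ
  · rw [ss_cp _ _ _ _ hv, Pi.zero_apply]
  · rw [ss_cn _ _ _ _ hv, ss_cp _ _ _ _ (Finset.mem_insert_self v σ), mul_zero, Pi.zero_apply]

private theorem ss_anti (ν : V → ℕ) (hν : Function.Injective ν) (v w : V) (hvw : v ≠ w)
    (g : Finset V → ℝ) : wedge ν v (wedge ν w g) = -wedge ν w (wedge ν v g) := by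
  funext σ
  rw [Pi.neg_apply]
  by_cases hv : v ∈ σ
  · by_cases hw : w ∈ σ
    · have hw' : w ∈ σ.erase v := Finset.mem_erase.2 ⟨hvw.symm, hw⟩
      have hv' : v ∈ σ.erase w := Finset.mem_erase.2 ⟨hvw, hv⟩
      rw [ss_wp _ _ _ _ hv, ss_wp _ _ _ _ hw', ss_wp _ _ _ _ hw, ss_wp _ _ _ _ hv',
        Finset.erase_right_comm]
      have h := sgn_swap_erase ν hν v w hvw σ hv hw
      linear_combination g ((σ.erase w).erase v) * h
    · have hw' : w ∉ σ.erase v := fun h => hw (Finset.mem_of_mem_erase h)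
      rw [ss_wp _ _ _ _ hv, ss_wn _ _ _ _ hw', ss_wn _ _ _ _ hw, mul_zero, neg_zero]
  · rw [ss_wn _ _ _ _ hv]
    by_cases hw : w ∈ σ
    · have hv' : v ∉ σ.erase w := fun h => hv (Finset.mem_of_mem_erase h)
      rw [ss_wp _ _ _ _ hw, ss_wn _ _ _ _ hv', mul_zero, neg_zero]
    · rw [ss_wn _ _ _ _ hw, neg_zero]

private theorem ss_bw (ν : V → ℕ) (hν : Function.Injective ν) (v : V) (g : Finset V → ℝ) :
    bd ν (wedge ν v g) = g - wedge ν v (bd ν g) := by
  have e1 : wedge ν v (g - wedge ν v (comp ν v g)) = wedge ν v g := by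
    rw [map_sub, ss_ww, sub_zero]
  have h := bd_wedge ν hν v (g - wedge ν v (comp ν v g)) (fun σ hσ => by
    rw [Pi.sub_apply, ss_wc, if_pos hσ, sub_self])
  have h2 := bd_wedge ν hν v (comp ν v g) (fun σ hσ => ss_cp _ _ _ _ hσ)
  rw [e1, map_sub (bd ν), h2, map_sub, map_sub, ss_ww, sub_zero] at h
  rw [h]
  abel

/-- the correction for the chains on the subdivided edge -/
private def ssD (ν : V → ℕ) (u w x : V) (g : Finset V → ℝ) : Finset V → ℝ :=
  wedge ν u (wedge ν x g) + wedge ν x (wedge ν w g) - wedge ν u (wedge ν w g)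

private theorem ss_bd_D (ν : V → ℕ) (hν : Function.Injective ν) (u w x : V)
    (g : Finset V → ℝ) : bd ν (ssD ν u w x g) = ssD ν u w x (bd ν g) := by
  unfold ssD
  simp only [map_add, map_sub, ss_bw ν hν]
  abel

/-- the boundary commutes with the subdivision map -/
private theorem ss_bd_s (ν : V → ℕ) (hν : Function.Injective ν) (u w x : V)
    (y : Finset V → ℝ) :
    bd ν (y + ssD ν u w x (comp ν w (comp ν u y))) =
      bd ν y + ssD ν u w x (comp ν w (comp ν u (bd ν y))) := by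
  rw [map_add, ss_bd_D ν hν, comp_bd ν hν u y, map_neg, comp_bd ν hν w, neg_neg]

private theorem ss_main (ν : V → ℕ) (hν : Function.Injective ν) {u w x : V} (huw : u ≠ w)
    (hux : u ≠ x) (hwx : w ≠ x) {z A A0 y : Finset V → ℝ} (hz : bd ν z = 0)
    (hzz : comp ν w (comp ν u z) = 0) (hA : A = comp ν x z)
    (hA0 : A0 = A - wedge ν u (comp ν u A) - wedge ν w (comp ν w A))
    (hy : y = z - wedge ν x A + wedge ν u A) :
    bd ν y = 0 ∧
      bd ν (wedge ν u (wedge ν x A0)) + (y + ssD ν u w x (comp ν w (comp ν u y))) = z := by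
  have hbA : bd ν A = 0 := by
    have h := comp_bd ν hν x z
    rw [hz, map_zero] at h
    rw [hA]
    exact neg_eq_zero.1 h.symm
  have hb : ∀ v, bd ν (comp ν v A) = 0 := by
    intro v
    have h := comp_bd ν hν v A
    rw [hbA, map_zero] at h
    exact neg_eq_zero.1 h.symm
  have hb0 : bd ν A0 = -comp ν u A - comp ν w A := by
    rw [hA0, map_sub, map_sub, ss_bw ν hν, ss_bw ν hν, hbA, hb, hb, map_zero, map_zero]
    abel
  have hcc : comp ν w (comp ν u A) = 0 := by
    rw [hA, comp_comp ν hν u x hux, map_neg, comp_comp ν hν w x hwx, hzz, map_zero, neg_zero,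
      neg_zero]
  have hC : comp ν w (comp ν u y) = comp ν w A := by
    rw [hy, map_add (comp ν u), map_sub (comp ν u), comp_wedge ν hν x u hux.symm, ss_cw,
      map_add (comp ν w), map_sub (comp ν w), map_sub (comp ν w), hzz, map_neg,
      comp_wedge ν hν x w hwx.symm, comp_wedge ν hν u w huw, hcc, map_zero, map_zero]
    abel
  refine ⟨?_, ?_⟩
  · rw [hy, map_add, map_sub, hz, ss_bw ν hν, ss_bw ν hν, hbA, map_zero, map_zero]
    abel
  · rw [hC, ss_bw ν hν, ss_bw ν hν, hb0, hy, hA0]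
    unfold ssD
    simp only [map_sub, map_neg, ss_ww, ss_anti ν hν x u hux.symm]
    abel

end Alg

section Supp

private theorem ss_suppw {ν : V → ℕ} {v : V} {g : Finset V → ℝ} {σ : Finset V}
    (h : wedge ν v g σ ≠ 0) : v ∈ σ ∧ g (σ.erase v) ≠ 0 := by
  by_cases hv : v ∈ σ
  · refine ⟨hv, fun h0 => h ?_⟩
    rw [ss_wp _ _ _ _ hv, h0, mul_zero]
  · exact absurd (ss_wn _ _ _ _ hv) h

private theorem ss_suppc {ν : V → ℕ} {v : V} {g : Finset V → ℝ} {σ : Finset V}
    (h : comp ν v g σ ≠ 0) : v ∉ σ ∧ g (insert v σ) ≠ 0 := by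
  by_cases hv : v ∈ σ
  · exact absurd (ss_cp _ _ _ _ hv) h
  · refine ⟨hv, fun h0 => h ?_⟩
    rw [ss_cn _ _ _ _ hv, h0, mul_zero]

/-- the part of a chain on the simplices with both vertices -/
private theorem ss_wwcc (ν : V → ℕ) (u w : V) (huw : u ≠ w) (y : Finset V → ℝ)
    (σ : Finset V) :
    wedge ν u (wedge ν w (comp ν w (comp ν u y))) σ = if u ∈ σ ∧ w ∈ σ then y σ else 0 := by
  by_cases hu : u ∈ σ
  · rw [ss_wp _ _ _ _ hu, ss_wc]
    by_cases hw : w ∈ σ
    · rw [if_pos (Finset.mem_erase.2 ⟨huw.symm, hw⟩), if_pos ⟨hu, hw⟩, ← ss_wp _ _ _ _ hu,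
        ss_wc, if_pos hu]
    · rw [if_neg (fun h => hw (Finset.mem_of_mem_erase h)), if_neg (fun h => hw h.2), mul_zero]
  · rw [ss_wn _ _ _ _ hu, if_neg (fun h => hu h.1)]

private theorem ss_ux {Δ : Finset V → Prop} {u w x : V} (huw : u ≠ w)
    (hux : u ≠ x) (hwx : w ≠ x) {σ : Finset V} {k : ℕ} (h1 : u ∈ σ) (h2 : x ∈ σ.erase u)
    (h3 : u ∉ (σ.erase u).erase x) (h4 : w ∉ (σ.erase u).erase x)
    (h5 : Δ (insert u (insert w ((σ.erase u).erase x))))
    (h6 : ((σ.erase u).erase x).card + 2 = k) : SubD Δ u w x σ ∧ σ.card = k := by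
  have _ := h3
  have hx : x ∈ σ := Finset.mem_of_mem_erase h2
  have hw : w ∉ σ := fun h => h4 (Finset.mem_erase.2 ⟨hwx, Finset.mem_erase.2 ⟨huw.symm, h⟩⟩)
  refine ⟨⟨fun h => hw h.2, Or.inr ⟨hx, ?_⟩⟩, ?_⟩
  · have e : insert u (insert w (σ.erase x)) = insert u (insert w ((σ.erase u).erase x)) := by
      ext a
      simp only [Finset.mem_insert, Finset.mem_erase]
      tauto
    rw [e]
    exact h5
  · rw [Finset.card_erase_of_mem h2, Finset.card_erase_of_mem h1] at h6
    have := Finset.card_pos.2 ⟨x, h2⟩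
    rw [Finset.card_erase_of_mem h1] at this
    omega

/-- the support of a subdivided chain -/
private theorem ss_s_supp {Δ : Finset V → Prop} (ν : V → ℕ) {u w x : V} (huw : u ≠ w)
    (hux : u ≠ x) (hwx : w ≠ x) (hx : ∀ σ, Δ σ → x ∉ σ) {y : Finset V → ℝ} {k : ℕ}
    (hy : ∀ σ, y σ ≠ 0 → Δ σ ∧ σ.card = k) :
    ∀ σ, (y + ssD ν u w x (comp ν w (comp ν u y))) σ ≠ 0 → SubD Δ u w x σ ∧ σ.card = k := by
  intro σ hσ
  set B := comp ν w (comp ν u y) with hB
  have hBs : ∀ τ, B τ ≠ 0 → u ∉ τ ∧ w ∉ τ ∧ Δ (insert u (insert w τ)) ∧ τ.card + 2 = k := by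
    intro τ hτ
    obtain ⟨h1, h2⟩ := ss_suppc hτ
    obtain ⟨h3, h4⟩ := ss_suppc h2
    obtain ⟨h5, h6⟩ := hy _ h4
    refine ⟨fun h => h3 (Finset.mem_insert_of_mem h), h1, h5, ?_⟩
    rw [Finset.card_insert_of_notMem h3, Finset.card_insert_of_notMem h1] at h6
    omega
  have e : (y + ssD ν u w x B) σ = (if u ∈ σ ∧ w ∈ σ then 0 else y σ) +
      wedge ν u (wedge ν x B) σ + wedge ν x (wedge ν w B) σ := by
    have h1 := ss_wwcc ν u w huw y σ
    rw [← hB] at h1
    unfold ssD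
    simp only [Pi.add_apply, Pi.sub_apply]
    rw [h1]
    by_cases h : u ∈ σ ∧ w ∈ σ
    · rw [if_pos h, if_pos h]
      ring
    · rw [if_neg h, if_neg h]
      ring
  rw [e] at hσ
  by_cases ha : wedge ν u (wedge ν x B) σ = 0
  · by_cases hb : wedge ν x (wedge ν w B) σ = 0
    · rw [ha, hb, add_zero, add_zero] at hσ
      by_cases h : u ∈ σ ∧ w ∈ σ
      · exact absurd (if_pos h) hσ
      · rw [if_neg h] at hσ
        obtain ⟨h1, h2⟩ := hy σ hσ
        exact ⟨⟨h, Or.inl ⟨hx σ h1, h1⟩⟩, h2⟩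
    · obtain ⟨h1, h2⟩ := ss_suppw hb
      obtain ⟨h3, h4⟩ := ss_suppw h2
      obtain ⟨h5, h6, h7, h8⟩ := hBs _ h4
      have hu : u ∉ σ := fun h => h5 (Finset.mem_erase.2 ⟨huw, Finset.mem_erase.2 ⟨hux, h⟩⟩)
      refine ⟨⟨fun h => hu h.1, Or.inr ⟨h1, ?_⟩⟩, ?_⟩
      · rw [Finset.insert_erase h3] at h7
        have e2 : insert w (σ.erase x) = σ.erase x := Finset.insert_eq_of_mem h3
        rw [e2]
        exact h7
      · rw [Finset.card_erase_of_mem h3, Finset.card_erase_of_mem h1] at h8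
        have := Finset.card_pos.2 ⟨w, h3⟩
        rw [Finset.card_erase_of_mem h1] at this
        omega
  · obtain ⟨h1, h2⟩ := ss_suppw ha
    obtain ⟨h3, h4⟩ := ss_suppw h2
    obtain ⟨h5, h6, h7, h8⟩ := hBs _ h4
    exact ss_ux huw hux hwx h1 h3 h5 h6 h7 h8

/-- the support of the image in the old complex -/
private theorem ss_r_supp {Δ : Finset V → Prop} (hd : ∀ σ τ, Δ σ → τ ⊆ σ → Δ τ) (ν : V → ℕ)
    {u w x : V} (hux : u ≠ x) {z : Finset V → ℝ} {k : ℕ}
    (hz : ∀ σ, z σ ≠ 0 → SubD Δ u w x σ ∧ σ.card = k) :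
    ∀ σ, (z - wedge ν x (comp ν x z) + wedge ν u (comp ν x z)) σ ≠ 0 →
      Δ σ ∧ σ.card = k := by
  intro σ hσ
  by_cases ha : wedge ν u (comp ν x z) σ = 0
  · rw [Pi.add_apply, Pi.sub_apply, ha, add_zero, ss_wc] at hσ
    by_cases h : x ∈ σ
    · rw [if_pos h, sub_self] at hσ
      exact absurd rfl hσ
    · rw [if_neg h, sub_zero] at hσ
      obtain ⟨⟨-, h1⟩, h2⟩ := hz σ hσ
      rcases h1 with h1 | h1
      · exact ⟨h1.2, h2⟩
      · exact absurd h1.1 h
  · obtain ⟨h1, h2⟩ := ss_suppw ha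
    obtain ⟨h3, h4⟩ := ss_suppc h2
    obtain ⟨⟨-, h5⟩, h6⟩ := hz _ h4
    have hxm : x ∈ insert x (σ.erase u) := Finset.mem_insert_self _ _
    rcases h5 with h5 | h5
    · exact absurd hxm h5.1
    · refine ⟨hd _ _ h5.2 ?_, ?_⟩
      · rw [Finset.erase_insert h3]
        intro a ha
        by_cases hau : a = u
        · rw [hau]
          exact Finset.mem_insert_self _ _
        · exact Finset.mem_insert_of_mem
            (Finset.mem_insert_of_mem (Finset.mem_erase.2 ⟨hau, ha⟩))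
      · rw [Finset.card_insert_of_notMem h3, Finset.card_erase_of_mem h1] at h6
        have := Finset.card_pos.2 ⟨u, h1⟩
        omega

/-- the support of the homotopy -/
private theorem ss_h_supp {Δ : Finset V → Prop} (ν : V → ℕ) {u w x : V} (huw : u ≠ w)
    (hux : u ≠ x) (hwx : w ≠ x) {z A A0 : Finset V → ℝ} {k : ℕ}
    (hz : ∀ σ, z σ ≠ 0 → SubD Δ u w x σ ∧ σ.card = k) (hA : A = comp ν x z)
    (hA0 : A0 = A - wedge ν u (comp ν u A) - wedge ν w (comp ν w A)) :
    ∀ σ, wedge ν u (wedge ν x A0) σ ≠ 0 → SubD Δ u w x σ ∧ σ.card = k + 1 := by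
  intro σ hσ
  obtain ⟨h1, h2⟩ := ss_suppw hσ
  obtain ⟨h3, h4⟩ := ss_suppw h2
  set τ := (σ.erase u).erase x with hτ
  have e : A0 τ = A τ - (if u ∈ τ then A τ else 0) - (if w ∈ τ then A τ else 0) := by
    rw [hA0, Pi.sub_apply, Pi.sub_apply, ss_wc, ss_wc]
  have huτ : u ∉ τ := fun h => (Finset.notMem_erase u σ) (Finset.mem_of_mem_erase h)
  have hwτ : w ∉ τ := by
    intro h
    rw [e, if_neg huτ, if_pos h] at h4
    apply h4
    ring
  rw [e, if_neg huτ, if_neg hwτ, sub_zero, sub_zero, hA] at h4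
  obtain ⟨h5, h6⟩ := ss_suppc h4
  obtain ⟨⟨-, h7⟩, h8⟩ := hz _ h6
  rw [Finset.card_insert_of_notMem h5] at h8
  rcases h7 with h7 | h7
  · exact absurd (Finset.mem_insert_self _ _) h7.1
  · refine ss_ux huw hux hwx h1 h3 huτ hwτ ?_ (by rw [← hτ]; omega)
    have h9 := h7.2
    rw [Finset.erase_insert h5] at h9
    exact h9

end Supp

/-- **Edge subdivisions preserve the homology.** -/
theorem Sph.subD {Δ : Finset V → Prop} {m : ℕ} (h : Sph Δ m) {u w x : V} (huw : u ≠ w)
    (hux : u ≠ x) (hwx : w ≠ x) (hx : ∀ σ, Δ σ → x ∉ σ) : Sph (SubD Δ u w x) m := by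
  have hdim : ∀ σ, SubD Δ u w x σ → σ.card ≤ m := by
    rintro σ ⟨h1, h2 | h2⟩
    · exact h.dim σ h2.2
    · have h3 := h.dim _ h2.2
      have h4 : (σ.erase x).card + 1 = σ.card := Finset.card_erase_add_one h2.1
      have h5 : (σ.erase x).card + 1 ≤ (insert u (insert w (σ.erase x))).card := by
        by_cases hu : u ∈ σ
        · have hw : w ∉ σ.erase x := fun h => h1 ⟨hu, Finset.mem_of_mem_erase h⟩
          rw [← Finset.card_insert_of_notMem hw]
          exact Finset.card_le_card (Finset.subset_insert _ _)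
        · have hu' : u ∉ σ.erase x := fun h => hu (Finset.mem_of_mem_erase h)
          rw [← Finset.card_insert_of_notMem hu']
          exact Finset.card_le_card (Finset.insert_subset_insert u (Finset.subset_insert _ _))
      omega
  have hcc : ∀ (ν : V → ℕ) (z : Finset V → ℝ) (k : ℕ),
      (∀ σ, z σ ≠ 0 → SubD Δ u w x σ ∧ σ.card = k) → comp ν w (comp ν u z) = 0 := by
    intro ν z k hz
    funext τ
    by_contra hne
    obtain ⟨h1, h2⟩ := ss_suppc hne
    obtain ⟨h3, h4⟩ := ss_suppc h2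
    obtain ⟨⟨h5, -⟩, -⟩ := hz _ h4
    exact h5 ⟨Finset.mem_insert_self _ _,
      Finset.mem_insert_of_mem (Finset.mem_insert_self _ _)⟩
  refine ⟨?_, hdim, ?_, ?_⟩
  · rintro σ τ ⟨h1, h2⟩ hτ
    refine ⟨fun h => h1 ⟨hτ h.1, hτ h.2⟩, ?_⟩
    by_cases hxτ : x ∈ τ
    · rcases h2 with h2 | h2
      · exact absurd (hτ hxτ) h2.1
      · exact Or.inr ⟨hxτ, h.down _ _ h2.2 (Finset.insert_subset_insert u
          (Finset.insert_subset_insert w (Finset.erase_subset_erase x hτ)))⟩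
    · refine Or.inl ⟨hxτ, ?_⟩
      rcases h2 with h2 | h2
      · exact h.down _ _ h2.2 hτ
      · refine h.down _ _ h2.2 fun a ha => Finset.mem_insert_of_mem
          (Finset.mem_insert_of_mem (Finset.mem_erase.2 ⟨?_, hτ ha⟩))
        rintro rfl
        exact hxτ ha
  · intro ν hν j hj z hz hbz
    obtain ⟨h1, h2⟩ := ss_main ν hν huw hux hwx hbz (hcc ν z j hz) rfl rfl rfl
    obtain ⟨y, hy, hby⟩ := h.low ν hν j hj _ (ss_r_supp h.down ν hux hz) h1
    refine ⟨wedge ν u (wedge ν x (comp ν x z - wedge ν u (comp ν u (comp ν x z)) -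
      wedge ν w (comp ν w (comp ν x z)))) + (y + ssD ν u w x (comp ν w (comp ν u y))), ?_, ?_⟩
    · intro σ hσ
      by_cases ha : wedge ν u (wedge ν x (comp ν x z - wedge ν u (comp ν u (comp ν x z)) -
          wedge ν w (comp ν w (comp ν x z)))) σ = 0
      · rw [Pi.add_apply, ha, zero_add] at hσ
        exact ss_s_supp ν huw hux hwx hx hy σ hσ
      · exact ss_h_supp ν huw hux hwx hz rfl rfl σ ha
    · rw [map_add, ss_bd_s ν hν, hby]
      exact h2
  · intro ν hν
    obtain ⟨o, ho, hbo, hone, huniq⟩ := h.top ν hν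
    refine ⟨o + ssD ν u w x (comp ν w (comp ν u o)), ss_s_supp ν huw hux hwx hx ho, ?_, ?_, ?_⟩
    · rw [ss_bd_s ν hν, hbo, map_zero, map_zero, zero_add]
      unfold ssD
      simp
    · intro h0
      have hxo : comp ν x o = 0 := by
        funext τ
        by_contra hne
        obtain ⟨h1, h2⟩ := ss_suppc hne
        exact hx _ (ho _ h2).1 (Finset.mem_insert_self _ _)
      set B := comp ν w (comp ν u o) with hB
      have hxB : comp ν x B = 0 := by
        rw [hB, comp_comp ν hν x w hwx.symm, comp_comp ν hν x u hux.symm, hxo, map_zero, neg_zero,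
          map_zero, neg_zero]
      have huB : comp ν u B = 0 := by
        rw [hB, comp_comp ν hν u w huw, ss_cc, map_zero, neg_zero]
      have h1 : comp ν x (o + ssD ν u w x B) = wedge ν w B - wedge ν u B := by
        unfold ssD
        rw [map_add, map_sub, map_add, hxo, comp_wedge ν hν u x hux, ss_cw, ss_cw,
          comp_wedge ν hν w x hwx, comp_wedge ν hν u x hux, comp_wedge ν hν w x hwx, hxB]
        simp only [map_zero, sub_zero, neg_zero, zero_add]
        abel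
      rw [h0, map_zero] at h1
      have h2 := congrArg (comp ν u) h1
      rw [map_zero, map_sub, comp_wedge ν hν w u huw.symm, ss_cw, huB, map_zero, map_zero,
        neg_zero, sub_zero, zero_sub] at h2
      have hB0 : B = 0 := neg_eq_zero.1 h2.symm
      apply hone
      rw [← h0, hB0]
      unfold ssD
      simp
    · intro z hz hbz
      obtain ⟨h1, h2⟩ := ss_main ν hν huw hux hwx hbz (hcc ν z m hz) rfl rfl rfl
      obtain ⟨r, hr⟩ := huniq _ (ss_r_supp h.down ν hux hz) h1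
      refine ⟨r, ?_⟩
      have h3 : wedge ν u (wedge ν x (comp ν x z - wedge ν u (comp ν u (comp ν x z)) -
          wedge ν w (comp ν w (comp ν x z)))) = 0 := by
        funext σ
        by_contra hne
        obtain ⟨h4, h5⟩ := ss_h_supp ν huw hux hwx hz rfl rfl σ hne
        have := hdim σ h4
        omega
      rw [h3, map_zero, zero_add, hr] at h2
      rw [← h2]
      unfold ssD
      simp only [map_smul, smul_add, smul_sub]

end Pool.Agent.H85.Fold3
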